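import Pool.Agent.H494_TD.Truth

/-! Construction of the set `X`. -/

open Nat.Partrec (Code)
open Nat.Partrec.Code

namespace Pool.Agent.H494_TD

open Pool.Agent.H494_SCM Pool.Agent.H494_SA

theorem exists_choice' {P : ℕ × ℕ → Prop} (hP : ComputablePred P) (h : ∀ n, ∃ w, P (n, w)) :
    ∃ f : ℕ → ℕ, Computable f ∧ ∀ n, P (n, f n) := by
  classical
  have hd : Computable (fun x : ℕ × ℕ => decide (P x)) := hP.decide
  have h1 : Partrec (fun n : ℕ => Nat.rfind (fun w => (Part.some (decide (P (n, w))) : Part Bool))) :=
    Partrec.rfind hd.partrec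
  have hdom : ∀ n, (Nat.rfind (fun w => (Part.some (decide (P (n, w))) : Part Bool))).Dom := by
    intro n
    rw [Nat.rfind_dom]
    obtain ⟨w, hw⟩ := h n
    exact ⟨w, by simpa using hw, fun _ => trivial⟩
  refine ⟨fun n => (Nat.rfind (fun w => (Part.some (decide (P (n, w))) : Part Bool))).get (hdom n),
    ?_, ?_⟩
  · refine Partrec.of_eq h1 ?_
    intro n
    exact (Part.some_get (hdom n)).symm
  · intro n
    have := Nat.rfind_spec (Part.get_mem (hdom n))
    simpa using this

/-- existential questions about computable predicates are answered by `0^(ω)` -/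
theorem sigma_index {α : Type} [Primcodable α] {D : α × ℕ → Prop} (hD : ComputablePred D) :
    ∃ q : α → ℕ, Computable q ∧ ∀ a, q a ∈ zeroOmega ↔ ∃ w, D (a, w) := by
  classical
  have h1 : Partrec (fun x : List Bool × α =>
      Nat.rfind (fun w => (Part.some (decide (D (x.2, w))) : Part Bool))) := by
    have : Computable (fun y : (List Bool × α) × ℕ => decide (D (y.1.2, y.2))) :=
      (cp_comp hD (Computable.pair (Computable.snd.comp Computable.fst) Computable.snd)).decide
    exact Partrec.rfind this.partrec
  obtain ⟨e, he⟩ := exists_index _ h1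
  refine ⟨fun a => Nat.pair 1 (Nat.pair e (Encodable.encode a)),
    c_pair (Computable.const 1) (c_pair (Computable.const e) Computable.encode), fun a => ?_⟩
  show (Nat.unpair (Nat.pair 1 (Nat.pair e (Encodable.encode a)))).2 ∈
      jumps (Nat.unpair (Nat.pair 1 (Nat.pair e (Encodable.encode a)))).1 ↔ _
  rw [Nat.unpair_pair]
  show Nat.pair e (Encodable.encode a) ∈ jump (jumps 0) ↔ _
  rw [he]
  constructor
  · rintro ⟨k, hk⟩
    obtain ⟨w, hw⟩ := Part.dom_iff_mem.1 hk
    have := Nat.rfind_spec hw
    exact ⟨w, by simpa using this⟩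
  · rintro ⟨w, hw⟩
    refine ⟨0, ?_⟩
    rw [Nat.rfind_dom]
    exact ⟨w, by simpa using hw, fun _ => trivial⟩

/-- a component of a coded list -/
def gc (k w : ℕ) : ℕ := (Denumerable.ofNat (List ℕ) w).getD k 0

theorem gc_encode (k : ℕ) (L : List ℕ) : gc k (Encodable.encode L) = L.getD k 0 := by
  unfold gc
  rw [Denumerable.ofNat_encode]

theorem gc_comp (k : ℕ) : Computable (gc k) :=
  cp_getD (Computable.ofNat (List ℕ)) (Computable.const k)

/-- the list of bits with a given number -/
def dl (n : ℕ) : List Bool := (Encodable.decode (α := List Bool) n).getD []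

theorem dl_encode (l : List Bool) : dl (Encodable.encode l) = l := by
  unfold dl
  rw [Encodable.encodek]
  rfl

theorem dl_comp : Computable dl := Computable.option_getD Computable.decode (Computable.const [])

/-- splittings -/
def D1 (x : (ℕ × List Bool) × ℕ) : Prop :=
  evaln (gc 3 x.2) (Denumerable.ofNat Code (Nat.unpair x.1.1).1)
    (Encodable.encode (x.1.2 ++ dl (gc 0 x.2), gc 2 x.2)) = some (Encodable.encode (some (gc 4 x.2))) ∧
  evaln (gc 3 x.2) (Denumerable.ofNat Code (Nat.unpair x.1.1).1)
    (Encodable.encode (x.1.2 ++ dl (gc 1 x.2), gc 2 x.2)) = some (Encodable.encode (some (gc 5 x.2))) ∧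
  gc 4 x.2 ≠ gc 5 x.2 ∧
  evaln (gc 3 x.2) (Denumerable.ofNat Code (Nat.unpair x.1.1).2) (gc 2 x.2) = some (gc 6 x.2)

theorem D1_comp : ComputablePred D1 := by
  have g : ∀ k, Computable (fun x : (ℕ × List Bool) × ℕ => gc k x.2) :=
    fun k => (gc_comp k).comp Computable.snd
  have ps : Computable (fun x : (ℕ × List Bool) × ℕ => x.1.1) :=
    Computable.fst.comp Computable.fst
  have pt : Computable (fun x : (ℕ × List Bool) × ℕ => x.1.2) :=
    Computable.snd.comp Computable.fst
  have ci : Computable (fun x : (ℕ × List Bool) × ℕ =>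
      Denumerable.ofNat Code (Nat.unpair x.1.1).1) := (Computable.ofNat Code).comp (c_up1 ps)
  have cj : Computable (fun x : (ℕ × List Bool) × ℕ =>
      Denumerable.ofNat Code (Nat.unpair x.1.1).2) := (Computable.ofNat Code).comp (c_up2 ps)
  have ar : ∀ k, Computable (fun x : (ℕ × List Bool) × ℕ =>
      Encodable.encode (x.1.2 ++ dl (gc k x.2), gc 2 x.2)) := fun k =>
    Computable.encode.comp (Computable.pair (Computable.list_append.comp pt
      (dl_comp.comp (g k))) (g 2))
  have ev : ∀ {c : (ℕ × List Bool) × ℕ → Code} {a : (ℕ × List Bool) × ℕ → ℕ},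
      Computable c → Computable a → Computable (fun x => evaln (gc 3 x.2) (c x) (a x)) :=
    fun hc ha => primrec_evaln.to_comp.comp (Computable.pair (Computable.pair (g 3) hc) ha)
  have en : ∀ k, Computable (fun x : (ℕ × List Bool) × ℕ =>
      some (Encodable.encode (some (gc k x.2)))) := fun k =>
    Computable.option_some.comp (Computable.encode.comp (Computable.option_some.comp (g k)))
  refine cp_and (cp_eq (ev ci (ar 0)) (en 4)) (cp_and (cp_eq (ev ci (ar 1)) (en 5))
    (cp_and (cp_not (cp_eq (g 4) (g 5))) ?_))
  exact cp_eq (ev cj (g 2)) (Computable.option_some.comp (g 6))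

/-- halting with value one -/
def D2 (x : (ℕ × ℕ) × ℕ) : Prop := evaln x.2 (Denumerable.ofNat Code x.1.1) x.1.2 = some 1

theorem D2_comp : ComputablePred D2 :=
  cp_eq (primrec_evaln.to_comp.comp (Computable.pair (Computable.pair Computable.snd
    ((Computable.ofNat Code).comp (Computable.fst.comp Computable.fst)))
    (Computable.snd.comp Computable.fst))) (Computable.const (some 1))

/-- choice between the two members of a splitting -/
def pick (x : (List Bool × ℕ) × Bool) : List Bool :=
  if gc 4 x.1.2 = x.2.toNat then x.1.1 ++ dl (gc 1 x.1.2) else x.1.1 ++ dl (gc 0 x.1.2)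

theorem pick_comp : Computable pick := by
  have pt : Computable (fun x : (List Bool × ℕ) × Bool => x.1.1) :=
    Computable.fst.comp Computable.fst
  have g : ∀ k, Computable (fun x : (List Bool × ℕ) × Bool => gc k x.1.2) :=
    fun k => (gc_comp k).comp (Computable.snd.comp Computable.fst)
  refine c_ite (cp_eq (g 4) ((Primrec.dom_bool Bool.toNat).to_comp.comp Computable.snd)) ?_ ?_
  · exact Computable.list_append.comp pt (dl_comp.comp (g 1))
  · exact Computable.list_append.comp pt (dl_comp.comp (g 0))

open Classical in
/-- first half of a stage -/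
noncomputable def half (x : ℕ × List Bool) : List Bool :=
  if h : ∃ w, D1 (x, w) then pick ((x.2, Nat.find h), decide (gc 6 (Nat.find h) ∈ zeroOmega))
  else x.2

open Classical in
/-- a stage -/
noncomputable def stage (x : ℕ × List Bool) : List Bool :=
  half x ++ [!decide (∃ k, D2 ((x.1, (half x).length), k))]

/-- the approximations -/
noncomputable def st : ℕ → List Bool
  | 0 => []
  | s + 1 => stage (s, st s)

theorem half_prefix (x : ℕ × List Bool) : x.2 <+: half x := by
  unfold half
  split_ifs with h
  · unfold pick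
    split_ifs
    · exact List.prefix_append _ _
    · exact List.prefix_append _ _
  · exact List.prefix_rfl

theorem st_prefix (s : ℕ) : st s <+: st (s + 1) :=
  (half_prefix (s, st s)).trans (List.prefix_append _ _)

theorem st_prefix' {s t : ℕ} (h : s ≤ t) : st s <+: st t := by
  induction h with
  | refl => exact List.prefix_rfl
  | step _ ih => exact ih.trans (st_prefix _)

theorem st_length (s : ℕ) : s ≤ (st s).length := by
  induction s with
  | zero => exact Nat.zero_le _
  | succ s ih =>
    have h1 := (half_prefix (s, st s)).length_le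
    show s + 1 ≤ (stage (s, st s)).length
    unfold stage
    rw [List.length_append, List.length_singleton]
    have h2 : (st s).length ≤ (half (s, st s)).length := h1
    omega

/-- the set -/
noncomputable def XX : Set ℕ := {n | (st (n + 1)).getD n false = true}

theorem prefix_getElem? {xs ys : List Bool} (h : xs <+: ys) {i : ℕ} (hi : i < xs.length) :
    ys[i]? = xs[i]? := by
  obtain ⟨t, rfl⟩ := h
  exact List.getElem?_append_left hi

theorem st_getElem (s n : ℕ) (h : n < (st s).length) :
    (st s)[n]? = open Classical in some (decide (n ∈ XX)) := by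
  classical
  have h1 : n < (st (n + 1)).length := lt_of_lt_of_le (Nat.lt_succ_self n) (st_length (n + 1))
  have h2 : (st s)[n]? = (st (n + 1))[n]? := by
    rcases le_total s (n + 1) with hs | hs
    · exact (prefix_getElem? (st_prefix' hs) h).symm
    · exact prefix_getElem? (st_prefix' hs) h1
  rw [h2, List.getElem?_eq_getElem h1]
  congr 1
  have h3 : n ∈ XX ↔ (st (n + 1)).getD n false = true := Iff.rfl
  rw [List.getD_eq_getElem _ _ h1] at h3
  rw [Bool.eq_iff_iff, decide_eq_true_iff]
  exact h3.symm

theorem st_seg (s : ℕ) : st s = seg XX (st s).length := by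
  classical
  apply List.ext_getElem?
  intro n
  rw [seg_getElem?]
  by_cases h : n < (st s).length
  · rw [if_pos h, st_getElem s n h]
  · rw [if_neg h, List.getElem?_eq_none (by omega)]

theorem half_seg (s : ℕ) : half (s, st s) = seg XX (half (s, st s)).length := by
  classical
  apply List.ext_getElem?
  intro n
  rw [seg_getElem?]
  by_cases h : n < (half (s, st s)).length
  · have h1 : half (s, st s) <+: st (s + 1) := List.prefix_append _ _
    rw [if_pos h, ← prefix_getElem? h1 h]
    exact st_getElem _ _ (lt_of_lt_of_le h h1.length_le)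
  · rw [if_neg h, List.getElem?_eq_none (by omega)]

/-- the diagonalization against computable sets -/
theorem XX_not_comp : ¬ ComputablePred (fun n => n ∈ XX) := by
  classical
  intro hX
  have h1 : Computable (fun n : ℕ => if n ∈ XX then 1 else 0) :=
    c_ite hX (Computable.const 1) (Computable.const 0)
  obtain ⟨c, hc⟩ := exists_code.1 (Partrec.nat_iff.1 h1)
  have hs : Denumerable.ofNat Code (Encodable.encode c) = c := Denumerable.ofNat_encode c
  set s := Encodable.encode c with hsdef
  set n := (half (s, st s)).length with hn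
  have h2 : st (s + 1) = half (s, st s) ++ [!decide (∃ k, D2 ((s, n), k))] := rfl
  have h3 : (st (s + 1))[n]? = some (!decide (∃ k, D2 ((s, n), k))) := by
    rw [h2, List.getElem?_append_right (by omega)]
    rw [← hn, Nat.sub_self]
    rfl
  have h4 : n < (st (s + 1)).length := by
    rw [h2, List.length_append, List.length_singleton]
    omega
  rw [st_getElem _ _ h4] at h3
  have h5 := Option.some.inj h3
  have h6 : (∃ k, D2 ((s, n), k)) ↔ n ∈ XX := by
    have h7 : (∃ k, D2 ((s, n), k)) ↔ 1 ∈ eval c n := by
      rw [evaln_complete]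
      apply exists_congr
      intro k
      show evaln k (Denumerable.ofNat Code s) n = some 1 ↔ _
      rw [hs]
      exact Iff.rfl
    rw [h7, hc]
    show 1 ∈ (Part.some (if n ∈ XX then 1 else 0)) ↔ _
    rw [Part.mem_some_iff]
    by_cases h : n ∈ XX <;> simp [h]
  by_cases h : n ∈ XX
  · have h8 := h6.2 h
    simp only [h, h8, decide_true, Bool.not_true] at h5
    exact absurd h5 (by simp)
  · have h8 : ¬ (∃ k, D2 ((s, n), k)) := fun hh => h (h6.1 hh)
    simp only [h, h8, decide_false, Bool.not_false] at h5
    exact absurd h5 (by simp)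

/-- everything below `X` and many-one below `0^(ω)` is computable -/
theorem XX_below {Y : Set ℕ} (hY : Nat.RecursiveIn {chi XX} (chi Y)) {t : ℕ → ℕ}
    (ht : Computable t) (hYt : ∀ y, y ∈ Y ↔ t y ∈ zeroOmega) : ComputablePred (fun y => y ∈ Y) := by
  classical
  obtain ⟨G, hG⟩ := exists_rep hY
  obtain ⟨ci, hci⟩ := exists_code.1 (show Nat.Partrec (fun n =>
    Part.bind (Encodable.decode (α := List Bool × ℕ) n) fun a =>
      (Part.some (G a)).map Encodable.encode) from hG.comp)
  obtain ⟨cj, hcj⟩ := exists_code.1 (Partrec.nat_iff.1 ht)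
  have hci' : ∀ (σ : List Bool) (y : ℕ), eval ci (Encodable.encode (σ, y)) =
      Part.some (Encodable.encode (G (σ, y))) := by
    intro σ y
    rw [hci]
    show ((↑(Encodable.decode (α := List Bool × ℕ) (Encodable.encode (σ, y))) :
      Part (List Bool × ℕ)).bind fun a => (Part.some (G a)).map Encodable.encode) = _
    rw [Encodable.encodek]
    simp
  let s := Nat.pair (Encodable.encode ci) (Encodable.encode cj)
  have hs1 : Denumerable.ofNat Code (Nat.unpair s).1 = ci := by
    show Denumerable.ofNat Code (Nat.unpair (Nat.pair (Encodable.encode ci)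
      (Encodable.encode cj))).1 = ci
    rw [Nat.unpair_pair, Denumerable.ofNat_encode]
  have hs2 : Denumerable.ofNat Code (Nat.unpair s).2 = cj := by
    show Denumerable.ofNat Code (Nat.unpair (Nat.pair (Encodable.encode ci)
      (Encodable.encode cj))).2 = cj
    rw [Nat.unpair_pair, Denumerable.ofNat_encode]
  -- evaluation facts
  have hev1 : ∀ (k : ℕ) (σ : List Bool) (y v : ℕ),
      evaln k ci (Encodable.encode (σ, y)) = some (Encodable.encode (some v)) →
        G (σ, y) = some v := by
    intro k σ y v h
    have h1 := evaln_sound (Option.mem_def.2 h)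
    rw [hci'] at h1
    exact (Encodable.encode_injective (Part.mem_some_iff.1 h1)).symm
  have hev2 : ∀ (k y z : ℕ), evaln k cj y = some z → z = t y := by
    intro k y z h
    have h1 := evaln_sound (Option.mem_def.2 h)
    rw [hcj] at h1
    exact Part.mem_some_iff.1 h1
  by_cases hD : ∃ w, D1 ((s, st s), w)
  · exfalso
    have hw := Nat.find_spec hD
    set w := Nat.find hD with hwdef
    have hhalf : half (s, st s) = pick ((st s, w), decide (gc 6 w ∈ zeroOmega)) := by
      unfold half
      rw [dif_pos hD]
    obtain ⟨h1, h2, h3, h4⟩ := hw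
    rw [hs1] at h1 h2
    rw [hs2] at h4
    have e1 := hev1 _ _ _ _ h1
    have e2 := hev1 _ _ _ _ h2
    have e3 := hev2 _ _ _ h4
    -- the chosen extension gives a wrong value
    have h5 : ∃ v, v ≠ (decide (gc 6 w ∈ zeroOmega)).toNat ∧
        G (half (s, st s), gc 2 w) = some v := by
      rw [hhalf]
      unfold pick
      simp only
      split_ifs with h6
      · refine ⟨gc 5 w, ?_, e2⟩
        rw [← h6]
        exact fun h => h3 h.symm
      · exact ⟨gc 4 w, h6, e1⟩
    obtain ⟨v, hv, hGv⟩ := h5
    rw [half_seg] at hGv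
    have h6 := hG.unique hGv
    have h7 : v = if gc 2 w ∈ Y then 1 else 0 := by
      have h8 : chi Y (gc 2 w) = Part.some (if gc 2 w ∈ Y then 1 else 0) := rfl
      rw [h8] at h6
      exact (Part.some_injective h6).symm
    apply hv
    rw [h7, e3]
    by_cases h : gc 2 w ∈ Y
    · rw [if_pos h, decide_eq_true ((hYt _).1 h)]
      rfl
    · rw [if_neg h, decide_eq_false (fun hh => h ((hYt _).2 hh))]
      rfl
  · -- no splitting: the values can be computed
    have huniq : ∀ (ρ ρ' : List Bool) (y a b : ℕ), G (st s ++ ρ, y) = some a →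
        G (st s ++ ρ', y) = some b → a = b := by
      intro ρ ρ' y a b ha hb
      by_contra hab
      apply hD
      have f1 : Encodable.encode (some a) ∈ eval ci (Encodable.encode (st s ++ ρ, y)) := by
        rw [hci', ha]; exact Part.mem_some _
      have f2 : Encodable.encode (some b) ∈ eval ci (Encodable.encode (st s ++ ρ', y)) := by
        rw [hci', hb]; exact Part.mem_some _
      have f3 : t y ∈ eval cj y := by
        rw [hcj]; exact Part.mem_some _
      obtain ⟨k1, hk1⟩ := evaln_complete.1 f1
      obtain ⟨k2, hk2⟩ := evaln_complete.1 f2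
      obtain ⟨k3, hk3⟩ := evaln_complete.1 f3
      have m1 := evaln_mono (le_max_left k1 (max k2 k3)) hk1
      have m2 := evaln_mono ((le_max_left k2 k3).trans (le_max_right k1 (max k2 k3))) hk2
      have m3 := evaln_mono ((le_max_right k2 k3).trans (le_max_right k1 (max k2 k3))) hk3
      refine ⟨Encodable.encode [Encodable.encode ρ, Encodable.encode ρ', y,
        max k1 (max k2 k3), a, b, t y], ?_⟩
      unfold D1
      simp only [gc_encode, hs1, hs2, List.getD_cons_zero, List.getD_cons_succ, dl_encode]
      exact ⟨Option.mem_def.1 m1, Option.mem_def.1 m2, hab, Option.mem_def.1 m3⟩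
    have hex : ∀ y, ∃ w, G (st s ++ dl (gc 0 w), y) = some (gc 1 w) := by
      intro y
      have h1 : (if y ∈ Y then 1 else 0) ∈ chi Y y := Part.mem_some _
      obtain ⟨k, hk⟩ := (hG.spec _ _).1 h1
      have h2 := hG.mono _ (max k (st s).length) _ _ (le_max_left _ _) hk
      have h3 : st s <+: seg XX (max k (st s).length) := by
        conv_lhs => rw [st_seg s]
        exact seg_prefix _ (le_max_right _ _)
      obtain ⟨ρ, hρ⟩ := h3
      refine ⟨Encodable.encode [Encodable.encode ρ, if y ∈ Y then 1 else 0], ?_⟩
      rw [gc_encode, gc_encode]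
      simp only [List.getD_cons_zero, List.getD_cons_succ, dl_encode]
      rw [hρ]
      exact h2
    have hP : ComputablePred (fun x : ℕ × ℕ => G (st s ++ dl (gc 0 x.2), x.1) =
        some (gc 1 x.2)) := by
      refine cp_eq (hG.comp.comp (Computable.pair (Computable.list_append.comp
        (Computable.const (st s)) (dl_comp.comp ((gc_comp 0).comp Computable.snd)))
        Computable.fst)) (Computable.option_some.comp ((gc_comp 1).comp Computable.snd))
    obtain ⟨f, hf, hf'⟩ := exists_choice' hP hex
    refine cp_of_iff (cp_eq ((gc_comp 1).comp hf) (Computable.const 1)) ?_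
    intro y
    have h1 : (if y ∈ Y then 1 else 0) ∈ chi Y y := Part.mem_some _
    obtain ⟨k, hk⟩ := (hG.spec _ _).1 h1
    have h2 := hG.mono _ (max k (st s).length) _ _ (le_max_left _ _) hk
    have h3 : st s <+: seg XX (max k (st s).length) := by
      conv_lhs => rw [st_seg s]
      exact seg_prefix _ (le_max_right _ _)
    obtain ⟨ρ, hρ⟩ := h3
    rw [← hρ] at h2
    have h4 := huniq _ _ _ _ _ h2 (hf' y)
    show y ∈ Y ↔ gc 1 (f y) = 1
    rw [← h4]
    by_cases h : y ∈ Y <;> simp [h]

end Pool.Agent.H494_TD
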