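import Pool.Agent.H494_TD.Use

/-! Functions computed from initial segments of a set are recursive in the set. -/

open Nat.Partrec (Code)
open Nat.Partrec.Code

namespace Pool.Agent.H494_TD

open Pool.Agent.H494_SCM

/-- total functions recursive in `O` -/
def TR (O : Set (ℕ →. ℕ)) (g : ℕ → ℕ) : Prop := Nat.RecursiveIn O (fun n => Part.some (g n))

variable {O : Set (ℕ →. ℕ)}

theorem TR.of_comp {g : ℕ → ℕ} (hg : Computable g) : TR O g :=
  Nat.Partrec.recursiveIn (Partrec.nat_iff.1 hg)

theorem TR.comp {g h : ℕ → ℕ} (hg : TR O g) (hh : TR O h) : TR O (fun n => g (h n)) := by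
  refine Nat.RecursiveIn.of_eq (Nat.RecursiveIn.comp hg hh) ?_
  intro n
  exact Part.bind_some _ _

theorem TR.pair {g h : ℕ → ℕ} (hg : TR O g) (hh : TR O h) :
    TR O (fun n => Nat.pair (g n) (h n)) := by
  refine Nat.RecursiveIn.of_eq (Nat.RecursiveIn.pair hg hh) ?_
  intro n
  simp [Seq.seq]

/-- the code of the initial segment -/
noncomputable def S (A : Set ℕ) (k : ℕ) : ℕ := Encodable.encode (seg A k)

/-- the characteristic function as a total function -/
noncomputable def ch (A : Set ℕ) (k : ℕ) : ℕ := open Classical in if k ∈ A then 1 else 0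

theorem ch_rec (A : Set ℕ) : TR {chi A} (ch A) :=
  Nat.RecursiveIn.oracle _ rfl

/-- append a bit -/
def app (q : ℕ) : ℕ := Encodable.encode
  ((Encodable.decode (α := List Bool) (Nat.unpair q).1).getD [] ++
    [decide ((Nat.unpair q).2 = 1)])

theorem app_comp : Computable app := by
  refine Computable.encode.comp (Computable.list_concat.comp
    (Computable.option_getD (Computable.decode.comp (c_up1 Computable.id))
      (Computable.const [])) ?_)
  exact (cp_eq (c_up2 Computable.id) (Computable.const 1)).decide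

theorem S_succ (A : Set ℕ) (k : ℕ) : S A (k + 1) = app (Nat.pair (S A k) (ch A k)) := by
  unfold S app ch
  rw [Nat.unpair_pair, seg_succ]
  simp only [Encodable.encodek, Option.getD_some]
  congr 3
  by_cases h : k ∈ A <;> simp [h]

theorem S_rec (A : Set ℕ) : TR {chi A} (S A) := by
  have hp : ∀ g : ℕ → ℕ, Computable g → TR {chi A} g := fun g hg => TR.of_comp hg
  have h1 : TR {chi A} (fun p => Nat.pair (Nat.unpair (Nat.unpair p).2).2
      (ch A (Nat.unpair (Nat.unpair p).2).1)) :=
    TR.pair (hp _ (c_up2 (c_up2 Computable.id)))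
      (TR.comp (ch_rec A) (hp _ (c_up1 (c_up2 Computable.id))))
  have h2 : TR {chi A} (fun p => app (Nat.pair (Nat.unpair (Nat.unpair p).2).2
      (ch A (Nat.unpair (Nat.unpair p).2).1))) := TR.comp (hp _ app_comp) h1
  have h3 := Nat.RecursiveIn.prec (hp (fun _ => S A 0) (Computable.const _)) h2
  have h4 := Nat.RecursiveIn.comp h3 (hp (fun k => Nat.pair 0 k)
    (c_pair (Computable.const 0) Computable.id))
  refine Nat.RecursiveIn.of_eq h4 ?_
  intro k
  refine (Part.bind_some _ _).trans ?_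
  simp only [Nat.unpair_pair]
  induction k with
  | zero => rfl
  | succ k ih =>
    refine (congrArg (fun z : Part ℕ => z.bind fun i =>
      Part.some (app (Nat.pair i (ch A k)))) ih).trans ?_
    refine (Part.bind_some _ _).trans ?_
    rw [S_succ]

/-- the values of the search -/
theorem exists_conv (A : Set ℕ) (c : Code) : ∃ f : ℕ →. ℕ, Nat.RecursiveIn {chi A} f ∧
    (∀ x v, v ∈ f x → ∃ k, v ∈ eval c (Nat.pair (S A k) x)) ∧
    ∀ x, (∃ k, (eval c (Nat.pair (S A k) x)).Dom) → (f x).Dom := by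
  have hp : ∀ g : ℕ → ℕ, Computable g → TR {chi A} g := fun g hg => TR.of_comp hg
  have hev : Computable (fun q : ℕ => evaln (Nat.unpair q).2 c (Nat.unpair q).1) :=
    primrec_evaln.to_comp.comp (Computable.pair (Computable.pair (c_up2 Computable.id)
      (Computable.const c)) (c_up1 Computable.id))
  have hE : Computable (fun q : ℕ => if evaln (Nat.unpair q).2 c (Nat.unpair q).1 = none
      then 1 else 0) :=
    c_ite (cp_eq hev (Computable.const none)) (Computable.const 1) (Computable.const 0)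
  have hV : Computable (fun q : ℕ => (evaln (Nat.unpair q).2 c (Nat.unpair q).1).getD 0) :=
    Computable.option_getD hev (Computable.const 0)
  -- the argument
  have hA : TR {chi A} (fun z => Nat.pair (Nat.pair (S A (Nat.unpair (Nat.unpair z).2).1)
      (Nat.unpair z).1) (Nat.unpair (Nat.unpair z).2).2) :=
    TR.pair (TR.pair (TR.comp (S_rec A) (hp _ (c_up1 (c_up2 Computable.id))))
      (hp _ (c_up1 Computable.id))) (hp _ (c_up2 (c_up2 Computable.id)))
  have hK := Nat.RecursiveIn.rfind (TR.comp (hp _ hE) hA)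
  have hfin := Nat.RecursiveIn.comp (TR.comp (hp _ hV) hA)
    (Nat.RecursiveIn.pair (hp (fun n => n) Computable.id) hK)
  refine ⟨_, hfin, ?_, ?_⟩
  · intro x v hv
    obtain ⟨z, hz, hv⟩ := Part.mem_bind_iff.1 hv
    simp only [Seq.seq, Part.map_eq_map, Part.mem_bind_iff, Part.mem_map_iff,
      Part.mem_some_iff] at hz
    obtain ⟨g', ⟨n', hn', hg'⟩, p, hp', hz⟩ := hz
    subst hg'
    subst hz
    rw [hn'] at hv
    have hsp := Nat.rfind_spec hp'
    simp only [Part.map_some, Part.mem_some_iff, Nat.unpair_pair] at hsp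
    simp only [Nat.unpair_pair, Part.mem_some_iff] at hv
    refine ⟨(Nat.unpair p).1, ?_⟩
    rcases he : evaln (Nat.unpair p).2 c (Nat.pair (S A (Nat.unpair p).1) x) with _ | w
    · rw [he] at hsp
      simp at hsp
    · rw [he] at hv
      rw [hv]
      exact evaln_sound (Option.mem_def.2 he)
  · rintro x ⟨k, hk⟩
    obtain ⟨w, hw⟩ := Part.dom_iff_mem.1 hk
    obtain ⟨t, ht⟩ := evaln_complete.1 hw
    have hd : (Nat.rfind fun n => (fun m => decide (m = 0)) <$> (Part.some
        (if evaln (Nat.unpair (Nat.pair (Nat.pair (S A (Nat.unpair (Nat.unpair (Nat.pair x n)).2).1)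
      (Nat.unpair (Nat.pair x n)).1) (Nat.unpair (Nat.unpair (Nat.pair x n)).2).2)).2 c
      (Nat.unpair (Nat.pair (Nat.pair (S A (Nat.unpair (Nat.unpair (Nat.pair x n)).2).1)
      (Nat.unpair (Nat.pair x n)).1) (Nat.unpair (Nat.unpair (Nat.pair x n)).2).2)).1 = none
      then 1 else 0))).Dom := by
      rw [Nat.rfind_dom]
      refine ⟨Nat.pair k t, ?_, fun _ => trivial⟩
      simp only [Nat.unpair_pair, Option.mem_def.1 ht]
      simp
    obtain ⟨p, hp'⟩ := Part.dom_iff_mem.1 hd
    apply Part.dom_iff_mem.2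
    refine ⟨_, Part.mem_bind_iff.2 ⟨Nat.pair x p, ?_, Part.mem_some _⟩⟩
    simp only [Seq.seq, Part.map_eq_map, Part.mem_bind_iff, Part.mem_map_iff,
      Part.mem_some_iff]
    exact ⟨_, ⟨_, rfl, rfl⟩, p, hp', rfl⟩

theorem jump_mem (A : Set ℕ) (e x : ℕ) : Nat.pair e x ∈ jump A ↔
    ∃ k, (eval (Denumerable.ofNat Code e) (Nat.pair (S A k) x)).Dom := by
  show (∃ k, (eval (Denumerable.ofNat Code (Nat.unpair (Nat.pair e x)).1)
    (Nat.pair (Encodable.encode (seg A k)) (Nat.unpair (Nat.pair e x)).2)).Dom) ↔ _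
  rw [Nat.unpair_pair]
  rfl

/-- index of a functional -/
theorem exists_index {α : Type} [Primcodable α] (Ψ : List Bool × α →. ℕ) (hΨ : Partrec Ψ) :
    ∃ e : ℕ, ∀ (A : Set ℕ) (x : α),
      (Nat.pair e (Encodable.encode x) ∈ jump A ↔ ∃ k, (Ψ (seg A k, x)).Dom) := by
  obtain ⟨c, hc⟩ := exists_code.1 (show Nat.Partrec (fun n =>
    Part.bind (Encodable.decode (α := List Bool × α) n) fun a => (Ψ a).map Encodable.encode) from hΨ)
  refine ⟨Encodable.encode c, fun A x => ?_⟩
  rw [jump_mem, Denumerable.ofNat_encode]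
  apply exists_congr
  intro k
  rw [hc]
  have : Nat.pair (S A k) (Encodable.encode x) =
      Encodable.encode ((seg A k, x) : List Bool × α) := rfl
  rw [this]
  show ((↑(Encodable.decode (α := List Bool × α) (Encodable.encode (seg A k, x))) :
    Part (List Bool × α)).bind fun a => (Ψ a).map Encodable.encode).Dom ↔ _
  rw [Encodable.encodek]
  simp

/-- `B` is the domain of a function recursive in `A` iff it is many-one reducible to the jump of
`A`. -/
theorem jump_spec (A B : Set ℕ) : (∃ f : ℕ →. ℕ, Nat.RecursiveIn {chi A} f ∧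
    ∀ x, x ∈ B ↔ (f x).Dom) ↔ ∃ g : ℕ → ℕ, Computable g ∧ ∀ x, x ∈ B ↔ g x ∈ jump A := by
  constructor
  · rintro ⟨f, hf, hB⟩
    obtain ⟨G, hG⟩ := exists_rep hf
    have h1 : Partrec (fun p : List Bool × ℕ => (G p : Part ℕ)) := hG.comp.ofOption
    obtain ⟨e, he⟩ := exists_index _ h1
    refine ⟨fun x => Nat.pair e x, c_pair (Computable.const e) Computable.id, fun x => ?_⟩
    rw [hB]
    refine Iff.trans ?_ (he A x).symm
    constructor
    · intro hd
      obtain ⟨v, hv⟩ := Part.dom_iff_mem.1 hd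
      obtain ⟨k, hk⟩ := (hG.spec x v).1 hv
      refine ⟨k, ?_⟩
      rw [hk]
      trivial
    · rintro ⟨k, hk⟩
      obtain ⟨v, hv⟩ := Part.dom_iff_mem.1 hk
      rw [Part.mem_ofOption] at hv
      exact Part.dom_iff_mem.2 ⟨v, (hG.spec x v).2 ⟨k, hv⟩⟩
  · rintro ⟨g, hg, hB⟩
    -- a universal functional
    have hu : Nat.Partrec (fun q => eval (Denumerable.ofNat Code
        (Nat.unpair (g (Nat.unpair q).2)).1)
        (Nat.pair (Nat.unpair q).1 (Nat.unpair (g (Nat.unpair q).2)).2)) := by
      have hg2 : Computable (fun q : ℕ => g (Nat.unpair q).2) := hg.comp (c_up2 Computable.id)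
      exact Partrec.nat_iff.1 (eval_part.comp ((Computable.ofNat Code).comp (c_up1 hg2))
        (c_pair (c_up1 Computable.id) (c_up2 hg2)))
    obtain ⟨c, hc⟩ := exists_code.1 hu
    obtain ⟨f, hf, hf1, hf2⟩ := exists_conv A c
    refine ⟨f, hf, fun x => ?_⟩
    have key : x ∈ B ↔ ∃ k, (eval c (Nat.pair (S A k) x)).Dom := by
      rw [hB, ← Nat.pair_unpair (g x), jump_mem, hc]
      simp only [Nat.unpair_pair]
    rw [key]
    constructor
    · exact hf2 x
    · intro hd
      obtain ⟨v, hv⟩ := Part.dom_iff_mem.1 hd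
      obtain ⟨k, hk⟩ := hf1 x v hv
      exact ⟨k, Part.dom_iff_mem.2 ⟨v, hk⟩⟩

end Pool.Agent.H494_TD
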