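import Mathlib

/-! Definitions: jumps, `0^(ω)`, Goedel numbering, computable presentations. -/

open FirstOrder Cardinal FirstOrder.Language

namespace Pool.Agent.H494_TD

/-- the characteristic function of a set of numbers, as a partial function -/
noncomputable def chi (A : Set ℕ) : ℕ →. ℕ :=
  open Classical in fun n => Part.some (if n ∈ A then 1 else 0)

/-- the initial segment of length `k` of (the characteristic function of) `A` -/
noncomputable def seg (A : Set ℕ) (k : ℕ) : List Bool :=
  open Classical in (List.range k).map (fun x => decide (x ∈ A))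

/-- The Turing jump: the set of pairs `⟨e, x⟩` such that the `e`-th algorithm halts on `x` together
with some initial segment of `A`. -/
def jump (A : Set ℕ) : Set ℕ :=
  {z | ∃ k, (Nat.Partrec.Code.eval (Denumerable.ofNat Nat.Partrec.Code (Nat.unpair z).1)
    (Nat.pair (Encodable.encode (seg A k)) (Nat.unpair z).2)).Dom}

/-- the finite jumps of the empty set -/
def jumps : ℕ → Set ℕ
  | 0 => ∅
  | n + 1 => jump (jumps n)

/-- the set of pairs `⟨n, x⟩` with `x` in the `n`-th jump of the empty set -/
def zeroOmega : Set ℕ := {z | (Nat.unpair z).2 ∈ jumps (Nat.unpair z).1}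

/-- The language with a function symbol `i` of arity `n` whenever `fs i = some n` and a relation
symbol `i` of arity `n` whenever `rs i = some n`. -/
def Lng (fs rs : ℕ → Option ℕ) : FirstOrder.Language.{0, 0} :=
  ⟨fun n => {i : ℕ // fs i = some n}, fun n => {i : ℕ // rs i = some n}⟩

/-- the list of numbers coded by a number -/
def lst (m : ℕ) : List ℕ := Denumerable.ofNat (List ℕ) m

theorem mem_lst_lt (m : ℕ) : ∀ k ∈ lst m, k < m := by
  have key : ∀ L : List ℕ, ∀ k ∈ L, k < Encodable.encode L := by
    intro L
    induction L with
    | nil => simp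
    | cons a L ih =>
      intro k hk
      rw [Encodable.encode_list_cons]
      rcases List.mem_cons.1 hk with rfl | hk
      · have := Nat.left_le_pair (Encodable.encode k) (Encodable.encode L)
        simp only [Encodable.encode_nat] at this ⊢
        omega
      · have h1 := ih k hk
        have := Nat.right_le_pair (Encodable.encode a) (Encodable.encode L)
        simp only [Encodable.encode_nat] at this ⊢
        omega
  intro k hk
  have := key (lst m) k hk
  unfold lst at this
  rwa [Denumerable.encode_ofNat] at this

/-- the term number `t` with variables among `x_0, ..., x_{n-1}`: `⟨0, i⟩` is the number of the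
variable `x_i`, and `⟨f + 1, l⟩` is the number of the function symbol `f` applied to the list of
terms coded by `l` (`none` if `t` is not the number of a term) -/
def tm (fs rs : ℕ → Option ℕ) (n : ℕ) (t : ℕ) : Option ((Lng fs rs).Term (Empty ⊕ Fin n)) :=
  if (Nat.unpair t).1 = 0 then
    if h : (Nat.unpair t).2 < n then some (Term.var (Sum.inr ⟨_, h⟩)) else none
  else
    if h : fs ((Nat.unpair t).1 - 1) = some (lst (Nat.unpair t).2).length ∧
        ∀ k : Fin (lst (Nat.unpair t).2).length,
          (tm fs rs n ((lst (Nat.unpair t).2).get k)).isSome then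
      some (Term.func (⟨(Nat.unpair t).1 - 1, h.1⟩ : (Lng fs rs).Functions _)
        (fun k => (tm fs rs n ((lst (Nat.unpair t).2).get k)).get (h.2 k)))
    else none
termination_by t
decreasing_by
  all_goals exact lt_of_lt_of_le (mem_lst_lt _ _ (List.get_mem _ _)) (Nat.unpair_right_le t)

/-- the formula `s = t` (falsity if `s` or `t` is not the number of a term) -/
def eqG (fs rs : ℕ → Option ℕ) (n s t : ℕ) : (Lng fs rs).BoundedFormula Empty n :=
  if h : (tm fs rs n s).isSome ∧ (tm fs rs n t).isSome then
    Term.bdEqual ((tm fs rs n s).get h.1) ((tm fs rs n t).get h.2)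
  else ⊥

/-- the formula `R_i(t_0, t_1, ...)` (falsity if the length of the list is not the arity of `R_i`
or some member of the list is not the number of a term) -/
def relG (fs rs : ℕ → Option ℕ) (n i : ℕ) (l : List ℕ) : (Lng fs rs).BoundedFormula Empty n :=
  if h : rs i = some l.length ∧ ∀ k : Fin l.length, (tm fs rs n (l.get k)).isSome then
    Relations.boundedFormula (⟨i, h.1⟩ : (Lng fs rs).Relations _)
      (fun k => (tm fs rs n (l.get k)).get (h.2 k))
  else ⊥

/-- the formula with Goedel number `c` and with free variables among `x_0, ..., x_{n-1}` -/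
def gm (fs rs : ℕ → Option ℕ) : (c n : ℕ) → (Lng fs rs).BoundedFormula Empty n
  | 0, _ => ⊥
  | c + 1, n =>
    match (Nat.unpair c).1 with
    | 0 => eqG fs rs n (Nat.unpair (Nat.unpair c).2).1 (Nat.unpair (Nat.unpair c).2).2
    | 1 => relG fs rs n (Nat.unpair (Nat.unpair c).2).1 (lst (Nat.unpair (Nat.unpair c).2).2)
    | 2 => (gm fs rs (Nat.unpair (Nat.unpair c).2).1 n).imp
        (gm fs rs (Nat.unpair (Nat.unpair c).2).2 n)
    | _ => (gm fs rs (Nat.unpair c).2 (n + 1)).all
termination_by c => c
decreasing_by
  · have h1 := Nat.unpair_right_le c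
    have h2 := Nat.unpair_left_le (Nat.unpair c).2
    omega
  · have h1 := Nat.unpair_right_le c
    have h2 := Nat.unpair_right_le (Nat.unpair c).2
    omega
  · have h1 := Nat.unpair_right_le c
    omega

/-- the set of Goedel numbers of the sentences that follow from `T` -/
def numbers {fs rs : ℕ → Option ℕ} (T : (Lng fs rs).Theory) : Set ℕ :=
  {c | T ⊨ᵇ (gm fs rs c 0)}

/-- `ν` is a computable presentation of `M`: a numbering of the universe under which equality, the
relations and the graphs of the functions are computable, uniformly in the symbols. -/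
structure CompPres {fs rs : ℕ → Option ℕ} (M : Type) [(Lng fs rs).Structure M] (ν : ℕ → M) :
    Prop where
  surj : Function.Surjective ν
  eq : ComputablePred fun p : ℕ × ℕ => ν p.1 = ν p.2
  rel : ComputablePred fun p : ℕ × List ℕ => ∃ h : rs p.1 = some p.2.length,
    Structure.RelMap (L := Lng fs rs) (⟨p.1, h⟩ : (Lng fs rs).Relations _) (fun k => ν (p.2.get k))
  fn : ComputablePred fun p : ℕ × List ℕ × ℕ => ∃ h : fs p.1 = some p.2.1.length,
    Structure.funMap (L := Lng fs rs) (⟨p.1, h⟩ : (Lng fs rs).Functions _) (fun k => ν (p.2.1.get k)) = ν p.2.2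

end Pool.Agent.H494_TD
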