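import Pool.Agent.H494_TD.Build

/-! The set `X` is computable in `0^(ω)`. -/

open Nat.Partrec (Code)
open Nat.Partrec.Code

namespace Pool.Agent.H494_TD

open Pool.Agent.H494_SCM Pool.Agent.H494_SA

/-- a query to the initial segment -/
def look (σ : List Bool) (n : ℕ) : Part Bool := (σ[n]? : Option Bool)

theorem look_part : Partrec (fun x : List Bool × ℕ => look x.1 x.2) :=
  (Computable.list_getElem?.comp Computable.fst Computable.snd).ofOption

open Classical in
theorem look_sound {A : Set ℕ} {k n : ℕ} {b : Bool} (h : b ∈ look (seg A k) n) :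
    b = decide (n ∈ A) := by
  unfold look at h
  rw [seg_getElem?] at h
  split_ifs at h
  · simpa using h
  · simp at h

open Classical in
theorem look_complete (A : Set ℕ) {k n : ℕ} (h : n < k) :
    look (seg A k) n = Part.some (decide (n ∈ A)) := by
  unfold look
  rw [seg_getElem?, if_pos h]
  rfl

theorem XX_low : Nat.RecursiveIn {chi zeroOmega} (chi XX) := by
  classical
  obtain ⟨q1, hq1, hq1'⟩ := sigma_index D1_comp
  obtain ⟨q2, hq2, hq2'⟩ := sigma_index D2_comp
  -- first half of a stage
  let src : ℕ × List Bool →. ℕ := fun x =>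
    Nat.rfind (fun w => (Part.some (decide (D1 (x, w))) : Part Bool))
  have hsrc : Partrec src := by
    have : Computable (fun y : (ℕ × List Bool) × ℕ => decide (D1 y)) := D1_comp.decide
    exact Partrec.rfind this.partrec
  let hp : List Bool × (ℕ × List Bool) →. List Bool := fun y =>
    (look y.1 (q1 y.2)).bind fun r => bif r then
      (src y.2).bind fun w => (look y.1 (gc 6 w)).map fun u => pick ((y.2.2, w), u)
      else Part.some y.2.2
  have hhp : Partrec hp := by
    have a1 : Partrec (fun y : List Bool × (ℕ × List Bool) => look y.1 (q1 y.2)) :=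
      look_part.comp (Computable.pair Computable.fst (hq1.comp Computable.snd))
    have a2 : Partrec (fun z : ((List Bool × (ℕ × List Bool)) × Bool) × ℕ =>
        (look z.1.1.1 (gc 6 z.2)).map fun u => pick ((z.1.1.2.2, z.2), u)) := by
      refine Partrec.map (look_part.comp (Computable.pair
        (Computable.fst.comp (Computable.fst.comp Computable.fst))
        ((gc_comp 6).comp Computable.snd))) ?_
      exact (pick_comp.comp (Computable.pair (Computable.pair (Computable.snd.comp
        (Computable.snd.comp (Computable.fst.comp (Computable.fst.comp Computable.fst))))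
        (Computable.snd.comp Computable.fst)) Computable.snd)).to₂
    have a3 : Partrec (fun z : (List Bool × (ℕ × List Bool)) × Bool =>
        (src z.1.2).bind fun w => (look z.1.1 (gc 6 w)).map fun u => pick ((z.1.2.2, w), u)) :=
      Partrec.bind (hsrc.comp (Computable.snd.comp Computable.fst)) a2.to₂
    have a4 : Partrec (fun z : (List Bool × (ℕ × List Bool)) × Bool =>
        bif z.2 then (src z.1.2).bind fun w => (look z.1.1 (gc 6 w)).map
          fun u => pick ((z.1.2.2, w), u) else Part.some z.1.2.2) :=
      Partrec.cond Computable.snd a3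
        ((Computable.snd.comp (Computable.snd.comp Computable.fst)).partrec)
    exact Partrec.bind a1 a4.to₂
  let sp : List Bool × (ℕ × List Bool) →. List Bool := fun y =>
    (hp y).bind fun τ => (look y.1 (q2 (y.2.1, τ.length))).map fun v => τ ++ [!v]
  have hsp : Partrec sp := by
    have a1 : Partrec (fun z : (List Bool × (ℕ × List Bool)) × List Bool =>
        (look z.1.1 (q2 (z.1.2.1, z.2.length))).map fun v => z.2 ++ [!v]) := by
      refine Partrec.map (look_part.comp (Computable.pair (Computable.fst.comp Computable.fst)
        (hq2.comp (Computable.pair (Computable.fst.comp (Computable.snd.comp Computable.fst))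
          (Computable.list_length.comp Computable.snd))))) ?_
      exact (Computable.list_concat.comp (Computable.snd.comp Computable.fst)
        ((Primrec.dom_bool not).to_comp.comp Computable.snd)).to₂
    exact Partrec.bind hhp a1.to₂
  -- soundness
  have src_val : ∀ x (h : ∃ w, D1 (x, w)), src x = Part.some (Nat.find h) := by
    intro x h
    have h1 : (src x).Dom := by
      show (Nat.rfind (fun w => (Part.some (decide (D1 (x, w))) : Part Bool))).Dom
      rw [Nat.rfind_dom]
      exact ⟨_, by simpa using Nat.find_spec h, fun _ => trivial⟩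
    obtain ⟨w, hw⟩ := Part.dom_iff_mem.1 h1
    have h2 : D1 (x, w) := by simpa using Nat.rfind_spec hw
    have h3 : Nat.find h = w := by
      rw [Nat.find_eq_iff]
      refine ⟨h2, fun m hm hm' => ?_⟩
      have := Nat.rfind_min hw hm
      simp [hm'] at this
    rw [h3]
    exact Part.eq_some_iff.2 hw
  have hp_sound : ∀ k x τ, τ ∈ hp (seg zeroOmega k, x) → τ = half x := by
    intro k x τ hτ
    obtain ⟨r, hr, h1⟩ := Part.mem_bind_iff.1 hτ
    have hr' := look_sound hr
    have hr2 : r = decide (∃ w, D1 (x, w)) := by
      rw [hr']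
      exact decide_eq_decide.2 (hq1' x)
    by_cases hD : ∃ w, D1 (x, w)
    · rw [decide_eq_true hD] at hr2
      subst hr2
      simp only [cond_true] at h1
      rw [src_val x hD, Part.bind_some] at h1
      obtain ⟨u, hu, h2⟩ := (Part.mem_map_iff _).1 h1
      rw [← h2, look_sound hu]
      unfold half
      rw [dif_pos hD]
    · rw [decide_eq_false hD] at hr2
      subst hr2
      simp only [cond_false] at h1
      rw [Part.mem_some_iff.1 h1]
      unfold half
      rw [dif_neg hD]
  have hp_complete : ∀ x, ∃ K, ∀ k ≥ K, half x ∈ hp (seg zeroOmega k, x) := by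
    intro x
    by_cases hD : ∃ w, D1 (x, w)
    · refine ⟨max (q1 x) (gc 6 (Nat.find hD)) + 1, fun k hk => ?_⟩
      refine Part.mem_bind_iff.2 ⟨true, ?_, ?_⟩
      · rw [look_complete _ (show q1 x < k by omega)]
        rw [decide_eq_true ((hq1' x).2 hD)]
        exact Part.mem_some _
      · simp only [cond_true]
        rw [src_val x hD, Part.bind_some]
        refine (Part.mem_map_iff _).2 ⟨decide (gc 6 (Nat.find hD) ∈ zeroOmega), ?_, ?_⟩
        · rw [look_complete _ (by omega)]
          exact Part.mem_some _
        · unfold half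
          rw [dif_pos hD]
    · refine ⟨q1 x + 1, fun k hk => ?_⟩
      refine Part.mem_bind_iff.2 ⟨false, ?_, ?_⟩
      · rw [look_complete _ (show q1 x < k by omega)]
        rw [decide_eq_false (fun h => hD ((hq1' x).1 h))]
        exact Part.mem_some _
      · simp only [cond_false]
        unfold half
        rw [dif_neg hD]
        exact Part.mem_some _
  have sp_sound : ∀ k x τ, τ ∈ sp (seg zeroOmega k, x) → τ = stage x := by
    intro k x τ hτ
    obtain ⟨τ', h1, h2⟩ := Part.mem_bind_iff.1 hτ
    have h3 := hp_sound k x τ' h1
    subst h3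
    obtain ⟨v, hv, h4⟩ := (Part.mem_map_iff _).1 h2
    rw [← h4, look_sound hv]
    unfold stage
    rw [decide_eq_decide.2 (hq2' (x.1, (half x).length))]
  have sp_complete : ∀ x, ∃ K, ∀ k ≥ K, stage x ∈ sp (seg zeroOmega k, x) := by
    intro x
    obtain ⟨K, hK⟩ := hp_complete x
    refine ⟨max K (q2 (x.1, (half x).length) + 1), fun k hk => ?_⟩
    refine Part.mem_bind_iff.2 ⟨half x, hK k (by omega), ?_⟩
    refine (Part.mem_map_iff _).2 ⟨decide (q2 (x.1, (half x).length) ∈ zeroOmega), ?_, ?_⟩
    · rw [look_complete _ (show q2 (x.1, (half x).length) < k by omega)]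
      exact Part.mem_some _
    · unfold stage
      rw [decide_eq_decide.2 (hq2' (x.1, (half x).length))]
  -- iteration
  let it : List Bool × ℕ →. List Bool := fun y =>
    y.2.rec (Part.some []) (fun s IH => IH.bind fun τ => sp (y.1, (s, τ)))
  have hit : Partrec it := by
    refine Partrec.nat_rec (f := fun y : List Bool × ℕ => y.2)
      (g := fun _ => Part.some []) (h := fun y z => sp (y.1, z)) Computable.snd
      (Computable.const []).partrec ?_
    exact (hsp.comp (Computable.pair (Computable.fst.comp Computable.fst) Computable.snd)).to₂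
  have it_sound : ∀ k s τ, τ ∈ it (seg zeroOmega k, s) → τ = st s := by
    intro k s
    induction s with
    | zero => intro τ h; exact Part.mem_some_iff.1 h
    | succ s ih =>
      intro τ h
      obtain ⟨τ', h1, h2⟩ := Part.mem_bind_iff.1 h
      have h3 := ih τ' h1
      subst h3
      exact sp_sound k _ τ h2
  have it_complete : ∀ s, ∃ K, ∀ k ≥ K, st s ∈ it (seg zeroOmega k, s) := by
    intro s
    induction s with
    | zero => exact ⟨0, fun k _ => Part.mem_some _⟩
    | succ s ih =>
      obtain ⟨K, hK⟩ := ih
      obtain ⟨K', hK'⟩ := sp_complete (s, st s)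
      exact ⟨max K K', fun k hk => Part.mem_bind_iff.2 ⟨st s, hK k (by omega),
        hK' k (by omega)⟩⟩
  -- the functional
  have hfin : Partrec (fun y : List Bool × ℕ =>
      (it (y.1, y.2 + 1)).map fun τ => (τ.getD y.2 false).toNat) := by
    refine Partrec.map (hit.comp (Computable.pair Computable.fst
      (c_add Computable.snd (Computable.const 1)))) ?_
    have b1 : Computable (fun z : (List Bool × ℕ) × List Bool => z.2.getD z.1.2 false) := by
      refine (Computable.option_getD (Computable.list_getElem?.comp Computable.snd
        (Computable.snd.comp Computable.fst)) (Computable.const false)).of_eq ?_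
      intro z
      rw [List.getD_eq_getElem?_getD]
    exact ((Primrec.dom_bool Bool.toNat).to_comp.comp b1).to₂
  obtain ⟨c, hc⟩ := exists_code.1 (show Nat.Partrec (fun n =>
    (Encodable.decode (α := List Bool × ℕ) n : Part (List Bool × ℕ)).bind
      fun y : List Bool × ℕ =>
      ((it (y.1, y.2 + 1)).map fun τ => (τ.getD y.2 false).toNat).map Encodable.encode) from hfin)
  have hc' : ∀ k n, eval c (Nat.pair (S zeroOmega k) n) =
      (it (seg zeroOmega k, n + 1)).map fun τ => (τ.getD n false).toNat := by
    intro k n
    rw [hc]
    show ((↑(Encodable.decode (α := List Bool × ℕ) (Encodable.encode (seg zeroOmega k, n))) :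
      Part (List Bool × ℕ)).bind fun y =>
        ((it (y.1, y.2 + 1)).map fun τ => (τ.getD y.2 false).toNat).map Encodable.encode) = _
    rw [Encodable.encodek]
    simp only [Part.coe_some, Part.bind_some]
    exact Part.map_id' (fun _ => rfl) _
  obtain ⟨f, hf, hf1, hf2⟩ := exists_conv zeroOmega c
  have hfe : f = chi XX := by
    funext n
    have hd : (f n).Dom := by
      apply hf2
      obtain ⟨K, hK⟩ := it_complete (n + 1)
      refine ⟨K, ?_⟩
      rw [hc']
      exact Part.dom_iff_mem.2 ⟨_, (Part.mem_map_iff _).2 ⟨_, hK K le_rfl, rfl⟩⟩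
    obtain ⟨v, hv⟩ := Part.dom_iff_mem.1 hd
    obtain ⟨k, hk⟩ := hf1 n v hv
    rw [hc'] at hk
    obtain ⟨τ, hτ, h1⟩ := (Part.mem_map_iff _).1 hk
    have h2 := it_sound k (n + 1) τ hτ
    subst h2
    have h3 : v = if n ∈ XX then 1 else 0 := by
      rw [← h1]
      have h4 : n ∈ XX ↔ (st (n + 1)).getD n false = true := Iff.rfl
      by_cases h : n ∈ XX
      · rw [if_pos h, h4.1 h]
        rfl
      · have h5 : (st (n + 1)).getD n false = false := by
          rw [← Bool.not_eq_true]
          exact fun hh => h (h4.2 hh)
        rw [if_neg h, h5]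
        rfl
    rw [h3] at hv
    exact Part.eq_some_iff.2 hv
  rw [← hfe]
  exact hf

end Pool.Agent.H494_TD
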