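import Pool.Agent.H494_TD.Term

/-! Truth in a computable presentation. -/

open FirstOrder Cardinal FirstOrder.Language
open Nat.Partrec (Code)

namespace Pool.Agent.H494_TD

open Pool.Agent.H494_SCM Pool.Agent.H494_SA

attribute [local irreducible] val tbl args strip

variable {fs rs : ℕ → Option ℕ} {M : Type} [(Lng fs rs).Structure M] {ν : ℕ → M}

/-- a computable function acting on numbers of elements -/
theorem exists_fn (hfs : Computable fs) (h : CompPres (fs := fs) (rs := rs) M ν) :
    ∃ Fn : ℕ × List ℕ → ℕ, Computable Fn ∧ ∀ (i : ℕ) (l : List ℕ) (hi : fs i = some l.length),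
      Structure.funMap (L := Lng fs rs) (⟨i, hi⟩ : (Lng fs rs).Functions _)
        (fun k => ν (l.get k)) = ν (Fn (i, l)) := by
  have hP : ComputablePred (fun x : (ℕ × List ℕ) × ℕ => fs x.1.1 ≠ some x.1.2.length ∨
      ∃ hi : fs x.1.1 = some x.1.2.length,
        Structure.funMap (L := Lng fs rs) (⟨x.1.1, hi⟩ : (Lng fs rs).Functions _)
          (fun k => ν (x.1.2.get k)) = ν x.2) := by
    refine cp_or (cp_not (cp_eq (hfs.comp (Computable.fst.comp Computable.fst))
      (Computable.option_some.comp (Computable.list_length.comp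
        (Computable.snd.comp Computable.fst))))) ?_
    exact cp_comp h.fn (Computable.pair (Computable.fst.comp Computable.fst)
      (Computable.pair (Computable.snd.comp Computable.fst) Computable.snd))
  obtain ⟨Fn, h1, h2⟩ := exists_choice'' hP (by
    rintro ⟨i, l⟩
    by_cases hi : fs i = some l.length
    · obtain ⟨y, hy⟩ := h.surj (Structure.funMap (L := Lng fs rs)
        (⟨i, hi⟩ : (Lng fs rs).Functions _) (fun k => ν (l.get k)))
      exact ⟨y, Or.inr ⟨hi, hy.symm⟩⟩
    · exact ⟨0, Or.inl hi⟩)
  refine ⟨Fn, h1, fun i l hi => ?_⟩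
  rcases h2 (i, l) with h3 | ⟨_, h3⟩
  · exact absurd hi h3
  · exact h3

theorem funMap_congr {i a b : ℕ} (ha : fs i = some a) (hb : fs i = some b) (x : Fin a → M)
    (y : Fin b → M) (hab : a = b) (hxy : ∀ k : Fin a, x k = y (Fin.cast hab k)) :
    Structure.funMap (L := Lng fs rs) (⟨i, ha⟩ : (Lng fs rs).Functions _) x =
      Structure.funMap (L := Lng fs rs) (⟨i, hb⟩ : (Lng fs rs).Functions _) y := by
  subst hab
  congr 1
  funext k
  exact hxy k

theorem relMap_congr {i a b : ℕ} (ha : rs i = some a) (hb : rs i = some b) (x : Fin a → M)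
    (y : Fin b → M) (hab : a = b) (hxy : ∀ k : Fin a, x k = y (Fin.cast hab k)) :
    Structure.RelMap (L := Lng fs rs) (⟨i, ha⟩ : (Lng fs rs).Relations _) x ↔
      Structure.RelMap (L := Lng fs rs) (⟨i, hb⟩ : (Lng fs rs).Relations _) y := by
  subst hab
  apply Iff.of_eq
  congr 1
  funext k
  exact hxy k

/-- values of terms -/
theorem tm_val {Fn : ℕ × List ℕ → ℕ} (hFn : ∀ (i : ℕ) (l : List ℕ) (hi : fs i = some l.length),
      Structure.funMap (L := Lng fs rs) (⟨i, hi⟩ : (Lng fs rs).Functions _)
        (fun k => ν (l.get k)) = ν (Fn (i, l))) (L : List ℕ) : ∀ t : ℕ,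
    (tm fs rs L.length t).map (fun s => s.realize (Sum.elim (default : Empty → M)
      (fun k : Fin L.length => ν (L.getD k 0)))) = (val fs Fn L t).map ν := by
  intro t
  induction t using Nat.strong_induction_on with
  | _ t ih =>
  rw [tm, val_eq]
  by_cases h0 : (Nat.unpair t).1 = 0
  · rw [if_pos h0, if_pos h0]
    by_cases h1 : (Nat.unpair t).2 < L.length
    · rw [dif_pos h1, if_pos h1]
      rfl
    · rw [dif_neg h1, if_neg h1]
      rfl
  · rw [if_neg h0, if_neg h0]
    have ih' : ∀ k : Fin (lst (Nat.unpair t).2).length,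
        (tm fs rs L.length ((lst (Nat.unpair t).2).get k)).map (fun s => s.realize
          (Sum.elim (default : Empty → M) (fun k : Fin L.length => ν (L.getD k 0)))) =
        (val fs Fn L ((lst (Nat.unpair t).2).get k)).map ν := fun k => ih _
      (lt_of_lt_of_le (mem_lst_lt _ _ (List.get_mem _ _)) (Nat.unpair_right_le t))
    have hsome : ∀ k : Fin (lst (Nat.unpair t).2).length,
        (tm fs rs L.length ((lst (Nat.unpair t).2).get k)).isSome ↔
          (val fs Fn L ((lst (Nat.unpair t).2).get k)).isSome := by
      intro k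
      have := congrArg Option.isSome (ih' k)
      rw [Option.isSome_map, Option.isSome_map] at this
      rw [this]
    have hnone : none ∉ (lst (Nat.unpair t).2).map (fun s => val fs Fn L s) ↔
        ∀ k : Fin (lst (Nat.unpair t).2).length,
          (tm fs rs L.length ((lst (Nat.unpair t).2).get k)).isSome := by
      constructor
      · intro h k
        rw [hsome]
        by_contra hk
        rw [Option.not_isSome_iff_eq_none] at hk
        apply h
        rw [← hk]
        exact List.mem_map.2 ⟨_, List.get_mem _ _, rfl⟩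
      · intro h hn
        obtain ⟨s, hs, hs'⟩ := List.mem_map.1 hn
        obtain ⟨k, rfl⟩ := List.get_of_mem hs
        have := (hsome k).1 (h k)
        rw [hs'] at this
        simp at this
    by_cases h1 : fs ((Nat.unpair t).1 - 1) = some (lst (Nat.unpair t).2).length ∧
        ∀ k : Fin (lst (Nat.unpair t).2).length,
          (tm fs rs L.length ((lst (Nat.unpair t).2).get k)).isSome
    · rw [dif_pos h1, if_pos ⟨h1.1, hnone.2 h1.2⟩]
      simp only [Option.map_some, Term.realize_func, Option.some.injEq]
      have hlen : fs ((Nat.unpair t).1 - 1) =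
          some (strip ((lst (Nat.unpair t).2).map (fun s => val fs Fn L s))).length := by
        unfold strip
        rw [List.length_map, List.length_map]
        exact h1.1
      rw [← hFn _ _ hlen]
      refine funMap_congr _ _ _ _ (by unfold strip; rw [List.length_map, List.length_map]) ?_
      intro k
      have h2 := ih' k
      have h3 : (strip ((lst (Nat.unpair t).2).map (fun s => val fs Fn L s))).get
          (Fin.cast (by unfold strip; rw [List.length_map, List.length_map]) k) =
          (val fs Fn L ((lst (Nat.unpair t).2).get k)).getD 0 := by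
        unfold strip
        simp
      rw [h3]
      obtain ⟨s, hs⟩ := Option.isSome_iff_exists.1 (h1.2 k)
      obtain ⟨v, hv⟩ := Option.isSome_iff_exists.1 ((hsome k).1 (h1.2 k))
      rw [hs, hv] at h2
      rw [hv]
      have h4 : (tm fs rs L.length ((lst (Nat.unpair t).2).get k)).get (h1.2 k) = s := by
        simp only [hs, Option.get_some]
      rw [h4]
      exact Option.some.inj h2
    · rw [dif_neg h1, if_neg (fun h => h1 ⟨h.1, hnone.1 h.2⟩)]
      rfl

/-- truth of formulas -/
def HT (fs rs : ℕ → Option ℕ) (M : Type) [(Lng fs rs).Structure M] (ν : ℕ → M) (c : ℕ)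
    (L : List ℕ) : Prop :=
  (gm fs rs c L.length).Realize default (fun k : Fin L.length => ν (L.getD k 0))

theorem ht_eq {Fn : ℕ × List ℕ → ℕ} (hFn : ∀ (i : ℕ) (l : List ℕ) (hi : fs i = some l.length),
      Structure.funMap (L := Lng fs rs) (⟨i, hi⟩ : (Lng fs rs).Functions _)
        (fun k => ν (l.get k)) = ν (Fn (i, l))) (L : List ℕ) (s t : ℕ) :
    (eqG fs rs L.length s t).Realize default (fun k : Fin L.length => ν (L.getD k 0)) ↔
      (val fs Fn L s).isSome ∧ (val fs Fn L t).isSome ∧
        ν ((val fs Fn L s).getD 0) = ν ((val fs Fn L t).getD 0) := by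
  have e1 := tm_val (rs := rs) hFn L s
  have e2 := tm_val (rs := rs) hFn L t
  have hs1 : (tm fs rs L.length s).isSome ↔ (val fs Fn L s).isSome := by
    have := congrArg Option.isSome e1
    rw [Option.isSome_map, Option.isSome_map] at this
    rw [this]
  have hs2 : (tm fs rs L.length t).isSome ↔ (val fs Fn L t).isSome := by
    have := congrArg Option.isSome e2
    rw [Option.isSome_map, Option.isSome_map] at this
    rw [this]
  unfold eqG
  by_cases h1 : (tm fs rs L.length s).isSome ∧ (tm fs rs L.length t).isSome
  · rw [dif_pos h1, BoundedFormula.realize_bdEqual]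
    have hget : ∀ (r : ℕ) (hr : (tm fs rs L.length r).isSome),
        ((tm fs rs L.length r).get hr).realize (Sum.elim (default : Empty → M)
          (fun k : Fin L.length => ν (L.getD k 0))) = ν ((val fs Fn L r).getD 0) := by
      intro r hr
      have e := tm_val (rs := rs) hFn L r
      obtain ⟨s', hs'⟩ := Option.isSome_iff_exists.1 hr
      rw [hs'] at e
      have h4 : (tm fs rs L.length r).get hr = s' := by
        simp only [hs', Option.get_some]
      rw [h4]
      rcases hv : val fs Fn L r with _ | v
      · rw [hv] at e; simp at e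
      · rw [hv] at e
        exact Option.some.inj e
    rw [hget, hget]
    exact ⟨fun h => ⟨hs1.1 h1.1, hs2.1 h1.2, h⟩, fun h => h.2.2⟩
  · rw [dif_neg h1]
    simp only [BoundedFormula.realize_bot, false_iff]
    rintro ⟨h2, h3, _⟩
    exact h1 ⟨hs1.2 h2, hs2.2 h3⟩

theorem ht_rel {Fn : ℕ × List ℕ → ℕ} (hFn : ∀ (i : ℕ) (l : List ℕ) (hi : fs i = some l.length),
      Structure.funMap (L := Lng fs rs) (⟨i, hi⟩ : (Lng fs rs).Functions _)
        (fun k => ν (l.get k)) = ν (Fn (i, l))) (L : List ℕ) (i : ℕ) (l : List ℕ) :
    (relG fs rs L.length i l).Realize default (fun k : Fin L.length => ν (L.getD k 0)) ↔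
      none ∉ l.map (fun s => val fs Fn L s) ∧
        ∃ h : rs i = some (strip (l.map (fun s => val fs Fn L s))).length,
          Structure.RelMap (L := Lng fs rs) (⟨i, h⟩ : (Lng fs rs).Relations _)
            (fun k => ν ((strip (l.map (fun s => val fs Fn L s))).get k)) := by
  have hlen : (strip (l.map (fun s => val fs Fn L s))).length = l.length := by
    unfold strip; rw [List.length_map, List.length_map]
  have ih' : ∀ k : Fin l.length,
      (tm fs rs L.length (l.get k)).map (fun s => s.realize
        (Sum.elim (default : Empty → M) (fun k : Fin L.length => ν (L.getD k 0)))) =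
      (val fs Fn L (l.get k)).map ν := fun k => tm_val (rs := rs) hFn L _
  have hsome : ∀ k : Fin l.length, (tm fs rs L.length (l.get k)).isSome ↔
      (val fs Fn L (l.get k)).isSome := by
    intro k
    have := congrArg Option.isSome (ih' k)
    rw [Option.isSome_map, Option.isSome_map] at this
    rw [this]
  have hnone : none ∉ l.map (fun s => val fs Fn L s) ↔
      ∀ k : Fin l.length, (tm fs rs L.length (l.get k)).isSome := by
    constructor
    · intro h k
      rw [hsome]
      by_contra hk
      rw [Option.not_isSome_iff_eq_none] at hk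
      apply h
      rw [← hk]
      exact List.mem_map.2 ⟨_, List.get_mem _ _, rfl⟩
    · intro h hn
      obtain ⟨s, hs, hs'⟩ := List.mem_map.1 hn
      obtain ⟨k, rfl⟩ := List.get_of_mem hs
      have := (hsome k).1 (h k)
      rw [hs'] at this
      simp at this
  unfold relG
  by_cases h1 : rs i = some l.length ∧
      ∀ k : Fin l.length, (tm fs rs L.length (l.get k)).isSome
  · rw [dif_pos h1, BoundedFormula.realize_rel]
    have h2 : rs i = some (strip (l.map (fun s => val fs Fn L s))).length := by
      rw [hlen]; exact h1.1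
    have h3 := relMap_congr (fs := fs) (rs := rs) (M := M) h1.1 h2 (fun k => ((tm fs rs L.length (l.get k)).get
      (h1.2 k)).realize (Sum.elim (default : Empty → M) (fun k : Fin L.length => ν (L.getD k 0))))
      (fun k => ν ((strip (l.map (fun s => val fs Fn L s))).get k)) hlen.symm (by
        intro k
        have h2 := ih' k
        have h3 : (strip (l.map (fun s => val fs Fn L s))).get (Fin.cast hlen.symm k) =
            (val fs Fn L (l.get k)).getD 0 := by
          unfold strip
          simp
        rw [h3]
        obtain ⟨s, hs⟩ := Option.isSome_iff_exists.1 (h1.2 k)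
        obtain ⟨v, hv⟩ := Option.isSome_iff_exists.1 ((hsome k).1 (h1.2 k))
        rw [hs, hv] at h2
        rw [hv]
        have h4 : (tm fs rs L.length (l.get k)).get (h1.2 k) = s := by
          simp only [hs, Option.get_some]
        rw [h4]
        exact Option.some.inj h2)
    refine h3.trans ?_
    constructor
    · intro h
      exact ⟨hnone.2 h1.2, h2, h⟩
    · rintro ⟨_, _, h⟩
      exact h
  · rw [dif_neg h1]
    simp only [BoundedFormula.realize_bot, false_iff]
    rintro ⟨h2, h3, _⟩
    rw [hlen] at h3
    exact h1 ⟨h3, hnone.1 h2⟩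

theorem truthSys (hfs : Computable fs) (h : CompPres (fs := fs) (rs := rs) M ν) :
    TruthSys (HT fs rs M ν) := by
  obtain ⟨Fn, hFn1, hFn⟩ := exists_fn hfs h
  have hval : Computable (fun x : List ℕ × ℕ => val fs Fn x.1 x.2) := val_comp hfs hFn1
  refine ⟨⟨fun x => x.1 ≠ 0 ∧ ((tg x.1 = 0 ∧ ((val fs Fn x.2 (d1 x.1)).isSome ∧
      (val fs Fn x.2 (d2 x.1)).isSome ∧
        ν ((val fs Fn x.2 (d1 x.1)).getD 0) = ν ((val fs Fn x.2 (d2 x.1)).getD 0))) ∨
      (tg x.1 = 1 ∧ (none ∉ args (tbl fs Fn x.2 (d2 x.1)) (lst (d2 x.1)) ∧
        ∃ h : rs (d1 x.1) = some (strip (args (tbl fs Fn x.2 (d2 x.1)) (lst (d2 x.1)))).length,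
          Structure.RelMap (L := Lng fs rs) (⟨d1 x.1, h⟩ : (Lng fs rs).Relations _)
            (fun k => ν ((strip (args (tbl fs Fn x.2 (d2 x.1)) (lst (d2 x.1)))).get k))))),
      ?_, ?_⟩, ?_, ?_⟩
  · have pc : Computable (fun x : ℕ × List ℕ => x.1) := Computable.fst
    have pL : Computable (fun x : ℕ × List ℕ => x.2) := Computable.snd
    have ka : ∀ k : ℕ, Computable (fun _ : ℕ × List ℕ => k) := fun k => Computable.const k
    have v1 : Computable (fun x : ℕ × List ℕ => val fs Fn x.2 (d1 x.1)) :=
      hval.comp (Computable.pair pL (d1_comp.comp pc))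
    have v2 : Computable (fun x : ℕ × List ℕ => val fs Fn x.2 (d2 x.1)) :=
      hval.comp (Computable.pair pL (d2_comp.comp pc))
    have hsm : ∀ {v : ℕ × List ℕ → Option ℕ}, Computable v →
        ComputablePred (fun x => (v x).isSome) := by
      intro v hv
      refine cp_of_iff (cp_not (cp_eq hv (Computable.const none))) ?_
      intro x
      rw [← Option.not_isSome_iff_eq_none, not_not]
    have ha : Computable (fun x : ℕ × List ℕ =>
        args (tbl fs Fn x.2 (d2 x.1)) (lst (d2 x.1))) :=
      args_comp.comp (Computable.pair ((tbl_comp hfs hFn1).comp (Computable.pair pL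
        (d2_comp.comp pc))) (lst_comp.comp (d2_comp.comp pc)))
    refine cp_and (cp_not (cp_eq pc (ka 0))) (cp_or (cp_and (cp_eq (tg_comp.comp pc) (ka 0))
      (cp_and (hsm v1) (cp_and (hsm v2) ?_))) (cp_and (cp_eq (tg_comp.comp pc) (ka 1))
      (cp_and (cp_comp none_mem_comp ha) ?_)))
    · exact cp_comp h.eq (Computable.pair (Computable.option_getD v1 (ka 0))
        (Computable.option_getD v2 (ka 0)))
    · exact cp_comp h.rel (Computable.pair (d1_comp.comp pc) (strip_comp.comp ha))
  · intro c L hc
    rcases Nat.eq_zero_or_pos c with rfl | hpos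
    · constructor
      · intro h
        unfold HT at h
        rw [gm] at h
        exact absurd h (by simp)
      · intro h
        exact absurd rfl h.1
    · have hc0 : c ≠ 0 := by omega
      have ht : tg c < 2 := by
        rcases hc with hc | hc
        · exact absurd hc hc0
        · exact hc
      obtain ⟨c, rfl⟩ := Nat.exists_eq_succ_of_ne_zero hc0
      have hargs : args (tbl fs Fn L (d2 (c + 1))) (lst (d2 (c + 1))) =
          (lst (d2 (c + 1))).map (fun s => val fs Fn L s) :=
        args_tbl L _ _ (mem_lst_lt _)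
      have ht' : (Nat.unpair c).1 < 2 := ht
      rcases Nat.lt_succ_iff_lt_or_eq.1 ht' with ht1 | ht1
      · have ht0 : (Nat.unpair c).1 = 0 := by omega
        have e : gm fs rs (c + 1) L.length = eqG fs rs L.length (d1 (c + 1)) (d2 (c + 1)) := by
          rw [gm, ht0]
          rfl
        unfold HT
        rw [Nat.succ_eq_add_one, e, ht_eq hFn]
        constructor
        · intro h
          exact ⟨hc0, Or.inl ⟨ht0, h⟩⟩
        · rintro ⟨_, ⟨_, h⟩ | ⟨h, _⟩⟩
          · exact h
          · have : (Nat.unpair c).1 = 1 := h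
            omega
      · have e : gm fs rs (c + 1) L.length = relG fs rs L.length (d1 (c + 1))
            (lst (d2 (c + 1))) := by
          rw [gm, ht1]
          rfl
        unfold HT
        rw [Nat.succ_eq_add_one, e, ht_rel hFn]
        let Q : List (Option ℕ) → Prop := fun l => none ∉ l ∧
          ∃ h : rs (d1 (c + 1)) = some (strip l).length,
            Structure.RelMap (L := Lng fs rs) (⟨d1 (c + 1), h⟩ : (Lng fs rs).Relations _)
              (fun k => ν ((strip l).get k))
        have hQ := congrArg Q hargs
        constructor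
        · intro h
          exact ⟨hc0, Or.inr ⟨ht1, hQ.mpr h⟩⟩
        · rintro ⟨_, ⟨h, _⟩ | ⟨_, h⟩⟩
          · have : (Nat.unpair c).1 = 0 := h
            omega
          · exact hQ.mp h
  · intro c L hc ht
    obtain ⟨c, rfl⟩ := Nat.exists_eq_succ_of_ne_zero hc
    have ht' : (Nat.unpair c).1 = 2 := ht
    have e : gm fs rs (c + 1) L.length = (gm fs rs (d1 (c + 1)) L.length).imp
        (gm fs rs (d2 (c + 1)) L.length) := by
      rw [gm, ht']
      rfl
    unfold HT
    rw [Nat.succ_eq_add_one, e]
    exact BoundedFormula.realize_imp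
  · intro c L hc ht
    obtain ⟨c, rfl⟩ := Nat.exists_eq_succ_of_ne_zero hc
    have ht' : 3 ≤ (Nat.unpair c).1 := ht
    have e : gm fs rs (c + 1) L.length = (gm fs rs (d0 (c + 1)) (L.length + 1)).all := by
      rw [gm]
      split
      · omega
      · omega
      · omega
      · rfl
    have hsn : ∀ m : ℕ, (gm fs rs (d0 (c + 1)) (L.length + 1)).Realize default
        (Fin.snoc (fun k : Fin L.length => ν (L.getD k 0)) (ν m) : Fin (L.length + 1) → M) ↔
        HT fs rs M ν (d0 (c + 1)) (L ++ [m]) := by
      intro m
      have e2 : (Fin.snoc (fun k : Fin L.length => ν (L.getD k 0)) (ν m) :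
          Fin (L.length + 1) → M) = fun k : Fin (L.length + 1) => ν ((L ++ [m]).getD k 0) := by
        funext k
        refine Fin.lastCases ?_ (fun k => ?_) k
        · rw [Fin.snoc_last]
          simp
        · rw [Fin.snoc_castSucc]
          congr 1
          simp
      rw [e2]
      unfold HT
      have gen : ∀ n n' : ℕ, n = n' → ((gm fs rs (d0 (c + 1)) n).Realize default
          (fun k : Fin n => ν ((L ++ [m]).getD k 0)) ↔
          (gm fs rs (d0 (c + 1)) n').Realize default
            (fun k : Fin n' => ν ((L ++ [m]).getD k 0))) := by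
        rintro n _ rfl
        exact Iff.rfl
      exact gen _ _ (by simp)
    unfold HT
    rw [Nat.succ_eq_add_one, e, BoundedFormula.realize_all]
    constructor
    · intro H m
      exact (hsn m).1 (H (ν m))
    · intro H x
      obtain ⟨m, rfl⟩ := h.surj x
      exact (hsn m).2 (H m)

end Pool.Agent.H494_TD
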