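import Pool.Agent.H494_TD.Pres

/-! Every formula has a Goedel number. -/

open FirstOrder Cardinal FirstOrder.Language

namespace Pool.Agent.H494_TD

variable {fs rs : ℕ → Option ℕ}

theorem tm_func' (n t : ℕ) (h0 : (Nat.unpair t).1 ≠ 0)
    (ts : Fin (lst (Nat.unpair t).2).length → (Lng fs rs).Term (Empty ⊕ Fin n))
    (hi : fs ((Nat.unpair t).1 - 1) = some (lst (Nat.unpair t).2).length)
    (h : ∀ k, tm fs rs n ((lst (Nat.unpair t).2).get k) = some (ts k)) :
    tm fs rs n t = some (Term.func (⟨(Nat.unpair t).1 - 1, hi⟩ : (Lng fs rs).Functions _) ts) := by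
  have hs : ∀ k, (tm fs rs n ((lst (Nat.unpair t).2).get k)).isSome := by
    intro k; rw [h]; rfl
  rw [tm, if_neg h0, dif_pos ⟨hi, hs⟩]
  congr 2
  funext k
  simp only [h, Option.get_some]

theorem func_congr {n i j a b : ℕ} (hi : fs i = some a) (hj : fs j = some b) (hij : i = j)
    (hab : a = b) (x : Fin a → (Lng fs rs).Term (Empty ⊕ Fin n))
    (y : Fin b → (Lng fs rs).Term (Empty ⊕ Fin n)) (hxy : ∀ k, x k = y (Fin.cast hab k)) :
    Term.func (⟨i, hi⟩ : (Lng fs rs).Functions _) x = Term.func (⟨j, hj⟩ : (Lng fs rs).Functions _) y := by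
  subst hij
  subst hab
  congr 1
  funext k
  exact hxy k

theorem relf_congr {n i j a b : ℕ} (hi : rs i = some a) (hj : rs j = some b) (hij : i = j)
    (hab : a = b) (x : Fin a → (Lng fs rs).Term (Empty ⊕ Fin n))
    (y : Fin b → (Lng fs rs).Term (Empty ⊕ Fin n)) (hxy : ∀ k, x k = y (Fin.cast hab k)) :
    BoundedFormula.rel (⟨i, hi⟩ : (Lng fs rs).Relations _) x =
      BoundedFormula.rel (⟨j, hj⟩ : (Lng fs rs).Relations _) y := by
  subst hij
  subst hab
  congr 1
  funext k
  exact hxy k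

theorem lst_encode (l : List ℕ) : lst (Encodable.encode l) = l := Denumerable.ofNat_encode l

theorem tm_surj (n : ℕ) (s : (Lng fs rs).Term (Empty ⊕ Fin n)) : ∃ c, tm fs rs n c = some s := by
  induction s with
  | var x =>
    rcases x with x | x
    · exact x.elim
    · refine ⟨Nat.pair 0 x, ?_⟩
      rw [tm]
      simp only [Nat.unpair_pair, if_true]
      rw [dif_pos x.2]
  | func f ts ih =>
    rename_i a
    obtain ⟨i, hi⟩ := f
    choose c hc using ih
    have e1 : (Nat.unpair (Nat.pair (i + 1) (Encodable.encode (List.ofFn c)))).1 - 1 = i := by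
      rw [Nat.unpair_pair]
      rfl
    have e2 : lst (Nat.unpair (Nat.pair (i + 1) (Encodable.encode (List.ofFn c)))).2 =
        List.ofFn c := by
      rw [Nat.unpair_pair]
      exact lst_encode _
    have e3 : (lst (Nat.unpair (Nat.pair (i + 1) (Encodable.encode (List.ofFn c)))).2).length =
        a := by
      rw [e2, List.length_ofFn]
    refine ⟨Nat.pair (i + 1) (Encodable.encode (List.ofFn c)), ?_⟩
    rw [tm_func' n _ (by rw [Nat.unpair_pair]; exact Nat.succ_ne_zero i)
      (fun k => ts (Fin.cast e3 k)) (by rw [e1, e3]; exact hi) ?_]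
    · congr 1
      exact func_congr _ _ e1 e3 _ _ (fun _ => rfl)
    · intro k
      rw [← hc]
      congr 1
      have h1 : (lst (Nat.unpair (Nat.pair (i + 1) (Encodable.encode (List.ofFn c)))).2)[(k : ℕ)]? =
          (List.ofFn c)[(k : ℕ)]? := congrArg (fun l : List ℕ => l[(k : ℕ)]?) e2
      have hk : (k : ℕ) < a := lt_of_lt_of_eq k.2 e3
      rw [List.getElem?_eq_getElem k.2, List.getElem?_eq_getElem (by simpa using hk),
        List.getElem_ofFn] at h1
      exact Option.some.inj h1

theorem relG_eq (n i a : ℕ) (hi : rs i = some a) (ts : Fin a → (Lng fs rs).Term (Empty ⊕ Fin n))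
    (c : Fin a → ℕ) (hc : ∀ k, tm fs rs n (c k) = some (ts k)) :
    relG fs rs n i (List.ofFn c) = BoundedFormula.rel (⟨i, hi⟩ : (Lng fs rs).Relations _) ts := by
  have hlen : (List.ofFn c).length = a := List.length_ofFn
  have hget : ∀ k : Fin (List.ofFn c).length,
      tm fs rs n ((List.ofFn c).get k) = some (ts (Fin.cast hlen k)) := by
    intro k
    rw [← hc]
    congr 1
    simp
    rfl
  unfold relG
  rw [dif_pos ⟨by rw [hlen]; exact hi, fun k => by rw [hget]; rfl⟩]
  exact relf_congr _ _ rfl hlen _ _ (fun k => by simp only [hget, Option.get_some])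

/-- every formula with free variables among the first `n` ones has a Goedel number -/
theorem gm_surj : ∀ {n : ℕ} (φ : (Lng fs rs).BoundedFormula Empty n), ∃ c, gm fs rs c n = φ := by
  intro n φ
  induction φ with
  | falsum => exact ⟨0, by rw [gm]; rfl⟩
  | equal t₁ t₂ =>
    obtain ⟨i, hi⟩ := tm_surj _ t₁
    obtain ⟨j, hj⟩ := tm_surj _ t₂
    refine ⟨Nat.pair 0 (Nat.pair i j) + 1, ?_⟩
    rw [gm]
    simp only [Nat.unpair_pair]
    unfold eqG
    rw [dif_pos ⟨by rw [hi]; rfl, by rw [hj]; rfl⟩]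
    simp only [hi, hj, Option.get_some]
    rfl
  | rel R ts =>
    rename_i m l
    obtain ⟨i, hi⟩ := R
    have hts : ∀ k, ∃ x, tm fs rs _ x = some (ts k) := fun k => tm_surj _ (ts k)
    choose x hx using hts
    refine ⟨Nat.pair 1 (Nat.pair i (Encodable.encode (List.ofFn x))) + 1, ?_⟩
    rw [gm]
    simp only [Nat.unpair_pair, lst_encode]
    exact relG_eq _ i l hi ts x hx
  | imp φ ψ ih1 ih2 =>
    obtain ⟨a, rfl⟩ := ih1
    obtain ⟨b, rfl⟩ := ih2
    refine ⟨Nat.pair 2 (Nat.pair a b) + 1, ?_⟩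
    conv_lhs => rw [gm]
    simp only [Nat.unpair_pair]
  | all φ ih =>
    obtain ⟨a, rfl⟩ := ih
    refine ⟨Nat.pair 3 a + 1, ?_⟩
    conv_lhs => rw [gm]
    simp only [Nat.unpair_pair]

end Pool.Agent.H494_TD
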