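import Pool.Agent.H494_TD.Low

/-! Evaluation of terms in a computable presentation. -/

open FirstOrder Cardinal FirstOrder.Language
open Nat.Partrec (Code)

namespace Pool.Agent.H494_TD

open Pool.Agent.H494_SCM Pool.Agent.H494_SA

theorem exists_choice'' {α : Type} [Primcodable α] {P : α × ℕ → Prop} (hP : ComputablePred P)
    (h : ∀ n, ∃ w, P (n, w)) : ∃ f : α → ℕ, Computable f ∧ ∀ n, P (n, f n) := by
  classical
  have hd : Computable (fun x : α × ℕ => decide (P x)) := hP.decide
  have h1 : Partrec (fun n : α => Nat.rfind (fun w => (Part.some (decide (P (n, w))) : Part Bool))) :=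
    Partrec.rfind hd.partrec
  have hdom : ∀ n, (Nat.rfind (fun w => (Part.some (decide (P (n, w))) : Part Bool))).Dom := by
    intro n
    rw [Nat.rfind_dom]
    obtain ⟨w, hw⟩ := h n
    exact ⟨w, by simpa using hw, fun _ => trivial⟩
  refine ⟨fun n => (Nat.rfind (fun w => (Part.some (decide (P (n, w))) : Part Bool))).get (hdom n),
    ?_, ?_⟩
  · refine Partrec.of_eq h1 ?_
    intro n
    exact (Part.some_get (hdom n)).symm
  · intro n
    have := Nat.rfind_spec (Part.get_mem (hdom n))
    simpa using this

theorem lst_comp : Computable lst := Computable.ofNat (List ℕ)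

/-- look up of several entries of a table -/
def args (P : List (Option ℕ)) (l : List ℕ) : List (Option ℕ) := l.map (fun s => P.getD s none)

theorem args_comp : Computable (fun x : List (Option ℕ) × List ℕ => args x.1 x.2) := by
  have h : Primrec₂ (fun (x : List (Option ℕ) × List ℕ) (k : ℕ) => x.1.getD k none) :=
    (Primrec.list_getD (α := Option ℕ) none).comp (Primrec.fst.comp Primrec.fst) Primrec.snd
  exact (Primrec.list_map Primrec.snd h).to_comp

/-- removing the options -/
def strip (l : List (Option ℕ)) : List ℕ := l.map (fun o => o.getD 0)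

theorem strip_comp : Computable strip := by
  have h : Primrec₂ (fun (_ : List (Option ℕ)) (o : Option ℕ) => o.getD 0) :=
    (Primrec.option_getD.comp Primrec.snd (Primrec.const 0)).to₂
  exact (Primrec.list_map Primrec.id h).to_comp

theorem none_mem_comp : ComputablePred (fun l : List (Option ℕ) => none ∉ l) := by
  have h1 : Computable (fun l : List (Option ℕ) =>
      @List.idxOf (Option ℕ) instBEqOfDecidableEq none l) :=
    Primrec.list_idxOf.to_comp.comp (Computable.const none) Computable.id
  refine cp_of_iff (cp_not (cp_lt h1 Computable.list_length)) ?_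
  intro l
  exact not_congr (@List.idxOf_lt_length_iff (Option ℕ) instBEqOfDecidableEq inferInstance
    l none).symm

variable (fs : ℕ → Option ℕ) (Fn : ℕ × List ℕ → ℕ)

/-- one step of the evaluation -/
def body (L : List ℕ) (P : List (Option ℕ)) (t : ℕ) : Option ℕ :=
  if (Nat.unpair t).1 = 0 then
    (if (Nat.unpair t).2 < L.length then some (L.getD (Nat.unpair t).2 0) else none)
  else if fs ((Nat.unpair t).1 - 1) = some (lst (Nat.unpair t).2).length ∧
      none ∉ args P (lst (Nat.unpair t).2) then
    some (Fn ((Nat.unpair t).1 - 1, strip (args P (lst (Nat.unpair t).2))))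
  else none

/-- the table of values -/
def tbl (L : List ℕ) : ℕ → List (Option ℕ)
  | 0 => []
  | t + 1 => tbl L t ++ [body fs Fn L (tbl L t) t]

/-- the value of a term -/
def val (L : List ℕ) (t : ℕ) : Option ℕ := body fs Fn L (tbl fs Fn L t) t

variable {fs Fn}

theorem body_comp (hfs : Computable fs) (hFn : Computable Fn) :
    Computable (fun x : List ℕ × List (Option ℕ) × ℕ => body fs Fn x.1 x.2.1 x.2.2) := by
  have pL : Computable (fun x : List ℕ × List (Option ℕ) × ℕ => x.1) := Computable.fst
  have pP : Computable (fun x : List ℕ × List (Option ℕ) × ℕ => x.2.1) :=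
    Computable.fst.comp Computable.snd
  have pt : Computable (fun x : List ℕ × List (Option ℕ) × ℕ => x.2.2) :=
    Computable.snd.comp Computable.snd
  have pl : Computable (fun x : List ℕ × List (Option ℕ) × ℕ => lst (Nat.unpair x.2.2).2) :=
    lst_comp.comp (c_up2 pt)
  have pa : Computable (fun x : List ℕ × List (Option ℕ) × ℕ =>
      args x.2.1 (lst (Nat.unpair x.2.2).2)) := args_comp.comp (Computable.pair pP pl)
  have pi : Computable (fun x : List ℕ × List (Option ℕ) × ℕ => (Nat.unpair x.2.2).1 - 1) :=
    c_sub (c_up1 pt) (Computable.const 1)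
  refine c_ite (cp_eq (c_up1 pt) (Computable.const 0)) ?_ (c_ite ?_ ?_ (Computable.const none))
  · exact c_ite (cp_lt (c_up2 pt) (Computable.list_length.comp pL))
      (Computable.option_some.comp (cp_getD pL (c_up2 pt))) (Computable.const none)
  · exact cp_and (cp_eq (hfs.comp pi) (Computable.option_some.comp
      (Computable.list_length.comp pl))) (cp_comp none_mem_comp pa)
  · exact Computable.option_some.comp (hFn.comp (Computable.pair pi (strip_comp.comp pa)))

attribute [local irreducible] body

theorem tbl_comp (hfs : Computable fs) (hFn : Computable Fn) :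
    Computable (fun x : List ℕ × ℕ => tbl fs Fn x.1 x.2) := by
  have ha : Computable (fun z : (List ℕ × ℕ) × (ℕ × List (Option ℕ)) =>
      ((z.1.1, z.2.2, z.2.1) : List ℕ × List (Option ℕ) × ℕ)) :=
    Computable.pair (Computable.fst.comp Computable.fst)
      (Computable.pair (Computable.snd.comp Computable.snd)
        (Computable.fst.comp Computable.snd))
  have hb : Computable (fun z : (List ℕ × ℕ) × (ℕ × List (Option ℕ)) =>
      body fs Fn z.1.1 z.2.2 z.2.1) := (body_comp hfs hFn).comp ha
  have h : Computable₂ (fun (x : List ℕ × ℕ) (q : ℕ × List (Option ℕ)) =>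
      q.2 ++ [body fs Fn x.1 q.2 q.1]) :=
    (Computable.list_concat.comp (Computable.snd.comp Computable.snd) hb).to₂
  have key : ∀ (L : List ℕ) (t : ℕ), (Nat.rec [] (fun y IH => IH ++ [body fs Fn L IH y]) t :
      List (Option ℕ)) = tbl fs Fn L t := by
    intro L t
    induction t with
    | zero => rfl
    | succ t ih =>
      rw [tbl, ← ih]
  exact (Computable.nat_rec Computable.snd (Computable.const []) h).of_eq (fun x => key x.1 x.2)

theorem val_comp (hfs : Computable fs) (hFn : Computable Fn) :
    Computable (fun x : List ℕ × ℕ => val fs Fn x.1 x.2) :=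
  (body_comp hfs hFn).comp (Computable.pair Computable.fst
    (Computable.pair (tbl_comp hfs hFn) Computable.snd))

theorem tbl_length (L : List ℕ) (t : ℕ) : (tbl fs Fn L t).length = t := by
  induction t with
  | zero => rfl
  | succ t ih => rw [tbl, List.length_append, ih]; rfl

theorem tbl_getD (L : List ℕ) : ∀ t s, s < t → (tbl fs Fn L t).getD s none = val fs Fn L s := by
  intro t
  induction t with
  | zero => intro s hs; exact absurd hs (Nat.not_lt_zero s)
  | succ t ih =>
    intro s hs
    rw [tbl]
    rcases Nat.lt_succ_iff_lt_or_eq.1 hs with hs | rfl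
    · rw [List.getD_append _ _ _ _ (by rw [tbl_length]; exact hs)]
      exact ih s hs
    · rw [List.getD_append_right _ _ _ _ (by rw [tbl_length])]
      rw [tbl_length, Nat.sub_self]
      rfl

theorem args_tbl (L : List ℕ) (t : ℕ) (l : List ℕ) (h : ∀ k ∈ l, k < t) :
    args (tbl fs Fn L t) l = l.map (fun s => val fs Fn L s) := by
  unfold args
  apply List.map_congr_left
  intro k hk
  exact tbl_getD L t k (h k hk)

theorem val_eq (L : List ℕ) (t : ℕ) : val fs Fn L t =
    if (Nat.unpair t).1 = 0 then
      (if (Nat.unpair t).2 < L.length then some (L.getD (Nat.unpair t).2 0) else none)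
    else if fs ((Nat.unpair t).1 - 1) = some (lst (Nat.unpair t).2).length ∧
        none ∉ (lst (Nat.unpair t).2).map (fun s => val fs Fn L s) then
      some (Fn ((Nat.unpair t).1 - 1, strip ((lst (Nat.unpair t).2).map
        (fun s => val fs Fn L s))))
    else none := by
  have hb : ∀ P : List (Option ℕ), body fs Fn L P t = if (Nat.unpair t).1 = 0 then
      (if (Nat.unpair t).2 < L.length then some (L.getD (Nat.unpair t).2 0) else none)
    else if fs ((Nat.unpair t).1 - 1) = some (lst (Nat.unpair t).2).length ∧
        none ∉ args P (lst (Nat.unpair t).2) then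
      some (Fn ((Nat.unpair t).1 - 1, strip (args P (lst (Nat.unpair t).2))))
    else none := fun P => by rw [body]
  rw [val, hb, args_tbl]
  intro k hk
  exact lt_of_lt_of_le (mem_lst_lt _ _ hk) (Nat.unpair_right_le t)

end Pool.Agent.H494_TD
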