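import Pool.Agent.H494_TD.Conv
import Pool.Agent.H494_SA.Strong

/-! Truth in a computable structure is many-one reducible to `0^(ω)`. -/

open Nat.Partrec (Code)
open Nat.Partrec.Code

namespace Pool.Agent.H494_TD

open Pool.Agent.H494_SCM Pool.Agent.H494_SA

/-- a partial function defined exactly where a computable predicate holds -/
theorem partrec_of_pred {α : Type} [Primcodable α] {p : α → Prop} (hp : ComputablePred p) :
    ∃ f : α →. ℕ, Partrec f ∧ ∀ a, (f a).Dom ↔ p a := by
  classical
  refine ⟨fun a => bif decide (p a) then Part.some 0 else Part.none, ?_, ?_⟩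
  · exact Partrec.cond hp.decide (Computable.const 0) Partrec.none
  · intro a
    by_cases h : p a <;> simp [h]

/-- index with a computable condition on the initial segment -/
theorem exists_index_pred {α : Type} [Primcodable α] {p : List Bool × α → Prop}
    (hp : ComputablePred p) :
    ∃ e : ℕ, ∀ (A : Set ℕ) (x : α),
      (Nat.pair e (Encodable.encode x) ∈ jump A ↔ ∃ k, p (seg A k, x)) := by
  obtain ⟨f, hf, hd⟩ := partrec_of_pred hp
  obtain ⟨e, he⟩ := exists_index f hf
  exact ⟨e, fun A x => (he A x).trans (exists_congr fun k => hd _)⟩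

theorem look_comp (b : Bool) : ComputablePred (fun p : List Bool × ℕ => p.1[p.2]? = some b) :=
  cp_eq (Computable.list_getElem?.comp Computable.fst Computable.snd) (Computable.const (some b))

theorem look_true (A : Set ℕ) (x : ℕ) : (∃ k, (seg A k)[x]? = some true) ↔ x ∈ A := by
  constructor
  · rintro ⟨k, hk⟩
    rw [seg_getElem?] at hk
    split_ifs at hk
    simpa using hk
  · intro h
    refine ⟨x + 1, ?_⟩
    rw [seg_getElem?, if_pos (Nat.lt_succ_self x)]
    simp [h]

theorem look_false (A : Set ℕ) (x : ℕ) : (∃ k, (seg A k)[x]? = some false) ↔ x ∉ A := by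
  constructor
  · rintro ⟨k, hk⟩
    rw [seg_getElem?] at hk
    split_ifs at hk
    simpa using hk
  · intro h
    refine ⟨x + 1, ?_⟩
    rw [seg_getElem?, if_pos (Nat.lt_succ_self x)]
    simp [h]

theorem exists_up : ∃ e : ℕ, ∀ (A : Set ℕ) (x : ℕ), Nat.pair e x ∈ jump A ↔ x ∈ A := by
  obtain ⟨e, he⟩ := exists_index_pred (look_comp true)
  exact ⟨e, fun A x => (he A x).trans (look_true A x)⟩

theorem exists_neg : ∃ e : ℕ, ∀ (A : Set ℕ) (x : ℕ), Nat.pair e x ∈ jump A ↔ x ∉ A := by
  obtain ⟨e, he⟩ := exists_index_pred (look_comp false)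
  exact ⟨e, fun A x => (he A x).trans (look_false A x)⟩

/-- iterated lifting -/
def upn (e : ℕ) (j x : ℕ) : ℕ := (fun y => Nat.pair e y)^[j] x

theorem upn_comp (e : ℕ) : Computable (fun p : ℕ × ℕ => upn e p.1 p.2) := by
  have h : Primrec₂ (fun (_ : ℕ × ℕ) (y : ℕ) => Nat.pair e y) :=
    (Primrec₂.natPair.comp (Primrec.const e) Primrec.snd).to₂
  exact (Primrec.nat_iterate Primrec.fst Primrec.snd h).to_comp

theorem upn_mem {e : ℕ} (he : ∀ (A : Set ℕ) (x : ℕ), Nat.pair e x ∈ jump A ↔ x ∈ A) (a : ℕ) :
    ∀ j x, upn e j x ∈ jumps (a + j) ↔ x ∈ jumps a := by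
  intro j
  induction j with
  | zero => intro x; exact Iff.rfl
  | succ j ih =>
    intro x
    unfold upn at ih ⊢
    rw [Function.iterate_succ_apply']
    exact (he (jumps (a + j)) _).trans (ih x)

theorem upn_mem' {e : ℕ} (he : ∀ (A : Set ℕ) (x : ℕ), Nat.pair e x ∈ jump A ↔ x ∈ A) {a b j : ℕ}
    (h : a + j = b) (x : ℕ) : upn e j x ∈ jumps b ↔ x ∈ jumps a := by
  subst h
  exact upn_mem he a j x

/-- a predicate on formula codes and environments that behaves as truth in a computable structure -/
structure TruthSys (T : ℕ → List ℕ → Prop) : Prop where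
  atom : ∃ A : ℕ × List ℕ → Prop, ComputablePred A ∧ ∀ c L, (c = 0 ∨ tg c < 2) →
    (T c L ↔ A (c, L))
  imp : ∀ c L, c ≠ 0 → tg c = 2 → (T c L ↔ (T (d1 c) L → T (d2 c) L))
  all : ∀ c L, c ≠ 0 → 3 ≤ tg c → (T c L ↔ ∀ m, T (d0 c) (L ++ [m]))

/-- arguments of the functionals -/
abbrev Arg := Code × (ℕ × List ℕ)

theorem exists_imp (u : ℕ) : ∃ e : ℕ, ∀ (A : Set ℕ) (H : Code) (c : ℕ) (L : List ℕ) (xa xb : ℕ),
    eval H (Encodable.encode (d1 c, L)) = Part.some xa →
    eval H (Encodable.encode (d2 c, L)) = Part.some xb →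
    (Nat.pair e (Encodable.encode ((H, (c, L)) : Arg)) ∈ jump A ↔
      upn u (2 * c - (2 * d1 c + 1)) xa ∉ A ∨ upn u (2 * c - (2 * d2 c + 1)) xb ∈ A) := by
  have k2 : Computable (fun _ : List Bool × Arg => (2 : ℕ)) := Computable.const 2
  have pc : Computable (fun x : List Bool × Arg => x.2.2.1) :=
    Computable.fst.comp (Computable.snd.comp Computable.snd)
  have pL : Computable (fun x : List Bool × Arg => x.2.2.2) :=
    Computable.snd.comp (Computable.snd.comp Computable.snd)
  have pH : Computable (fun x : List Bool × Arg => x.2.1) := Computable.fst.comp Computable.snd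
  have h1 : Partrec (fun x : List Bool × Arg =>
      eval x.2.1 (Encodable.encode (d1 x.2.2.1, x.2.2.2))) :=
    eval_part.comp pH (Computable.encode.comp (Computable.pair (d1_comp.comp pc) pL))
  have h2 : Partrec (fun x : List Bool × Arg =>
      eval x.2.1 (Encodable.encode (d2 x.2.2.1, x.2.2.2))) :=
    eval_part.comp pH (Computable.encode.comp (Computable.pair (d2_comp.comp pc) pL))
  let P : (List Bool × Arg) × ℕ × ℕ → Prop := fun y =>
    y.1.1[upn u (2 * y.1.2.2.1 - (2 * d1 y.1.2.2.1 + 1)) y.2.1]? = some false ∨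
    y.1.1[upn u (2 * y.1.2.2.1 - (2 * d2 y.1.2.2.1 + 1)) y.2.2]? = some true
  have hP : ComputablePred P := by
    have qc : Computable (fun y : (List Bool × Arg) × ℕ × ℕ => y.1.2.2.1) :=
      pc.comp Computable.fst
    have qs : Computable (fun y : (List Bool × Arg) × ℕ × ℕ => y.1.1) :=
      Computable.fst.comp Computable.fst
    have ka : ∀ k : ℕ, Computable (fun _ : (List Bool × Arg) × ℕ × ℕ => k) :=
      fun k => Computable.const k
    have j1 := c_sub (c_mul (ka 2) qc) (c_add (c_mul (ka 2) (d1_comp.comp qc)) (ka 1))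
    have j2 := c_sub (c_mul (ka 2) qc) (c_add (c_mul (ka 2) (d2_comp.comp qc)) (ka 1))
    refine cp_or (cp_comp (look_comp false) (Computable.pair qs ((upn_comp u).comp
      (Computable.pair j1 (Computable.fst.comp Computable.snd)))))
      (cp_comp (look_comp true) (Computable.pair qs ((upn_comp u).comp
      (Computable.pair j2 (Computable.snd.comp Computable.snd)))))
  obtain ⟨f, hf, hd⟩ := partrec_of_pred hP
  have h3 : Partrec (fun x : List Bool × Arg =>
      (eval x.2.1 (Encodable.encode (d1 x.2.2.1, x.2.2.2))).bind fun xa =>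
        (eval x.2.1 (Encodable.encode (d2 x.2.2.1, x.2.2.2))).bind fun xb => f (x, xa, xb)) := by
    have h4 : Partrec (fun z : (List Bool × Arg) × ℕ =>
        (eval z.1.2.1 (Encodable.encode (d2 z.1.2.2.1, z.1.2.2.2))).bind
          fun xb => f (z.1, z.2, xb)) := by
      refine Partrec.bind (h2.comp Computable.fst) ?_
      exact (hf.comp (Computable.pair (Computable.fst.comp Computable.fst)
        (Computable.pair (Computable.snd.comp Computable.fst) Computable.snd))).to₂
    exact Partrec.bind h1 h4.to₂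
  obtain ⟨e, he⟩ := exists_index _ h3
  refine ⟨e, fun A H c L xa xb ha hb => ?_⟩
  rw [he]
  simp only [ha, hb, Part.bind_some, hd, P]
  rw [← look_false, ← look_true]
  exact exists_or

theorem exists_all (u : ℕ) : ∃ e : ℕ, ∀ (A : Set ℕ) (H : Code) (c : ℕ) (L : List ℕ)
    (y : ℕ → ℕ), (∀ m, eval H (Encodable.encode (d0 c, L ++ [m])) = Part.some (y m)) →
    (Nat.pair e (Encodable.encode ((H, (c, L)) : Arg)) ∈ jump A ↔
      ∃ m, upn u (2 * c - 1 - (2 * d0 c + 1)) (y m) ∉ A) := by
  classical
  have pc : Computable (fun x : (List Bool × Arg) × ℕ => x.1.2.2.1) :=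
    Computable.fst.comp (Computable.snd.comp (Computable.snd.comp Computable.fst))
  have pL : Computable (fun x : (List Bool × Arg) × ℕ => x.1.2.2.2) :=
    Computable.snd.comp (Computable.snd.comp (Computable.snd.comp Computable.fst))
  have pH : Computable (fun x : (List Bool × Arg) × ℕ => x.1.2.1) :=
    Computable.fst.comp (Computable.snd.comp Computable.fst)
  have h1 : Partrec (fun x : (List Bool × Arg) × ℕ =>
      eval x.1.2.1 (Encodable.encode (d0 x.1.2.2.1, x.1.2.2.2 ++ [x.2]))) :=
    eval_part.comp pH (Computable.encode.comp (Computable.pair (d0_comp.comp pc)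
      (Computable.list_concat.comp pL Computable.snd)))
  let P : ((List Bool × Arg) × ℕ) × ℕ → Prop := fun y =>
    y.1.1.1[upn u (2 * y.1.1.2.2.1 - 1 - (2 * d0 y.1.1.2.2.1 + 1)) y.2]? = some false
  have hP : ComputablePred P := by
    have qc : Computable (fun y : ((List Bool × Arg) × ℕ) × ℕ => y.1.1.2.2.1) :=
      pc.comp Computable.fst
    have qs : Computable (fun y : ((List Bool × Arg) × ℕ) × ℕ => y.1.1.1) :=
      Computable.fst.comp (Computable.fst.comp Computable.fst)
    have ka : ∀ k : ℕ, Computable (fun _ : ((List Bool × Arg) × ℕ) × ℕ => k) :=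
      fun k => Computable.const k
    have j1 := c_sub (c_sub (c_mul (ka 2) qc) (ka 1))
      (c_add (c_mul (ka 2) (d0_comp.comp qc)) (ka 1))
    exact cp_comp (look_comp false) (Computable.pair qs ((upn_comp u).comp
      (Computable.pair j1 Computable.snd)))
  have h2 : Partrec₂ (fun (x : List Bool × Arg) (m : ℕ) =>
      (eval x.2.1 (Encodable.encode (d0 x.2.2.1, x.2.2.2 ++ [m]))).map
        fun z => decide (P ((x, m), z))) := by
    refine Partrec.map h1 ?_
    exact (hP.decide).to₂
  have h3 := Partrec.rfind h2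
  obtain ⟨e, he⟩ := exists_index _ h3
  refine ⟨e, fun A H c L y hy => ?_⟩
  rw [he]
  simp only [Nat.rfind_dom, hy, Part.map_some, Part.some_dom, implies_true, and_true,
    Part.mem_some_iff, P]
  rw [exists_comm]
  apply exists_congr
  intro m
  rw [← look_false]
  apply exists_congr
  intro k
  rw [eq_comm, decide_eq_true_iff]

/-- truth is many-one reducible to `0^(ω)` -/
theorem truth_reduces {T : ℕ → List ℕ → Prop} (hT : TruthSys T) :
    ∃ t : ℕ × List ℕ → ℕ, Computable t ∧ ∀ c L, T c L ↔ t (c, L) ∈ zeroOmega := by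
  classical
  obtain ⟨A, hA, hA'⟩ := hT.atom
  obtain ⟨u, hu⟩ := exists_up
  obtain ⟨v, hv⟩ := exists_neg
  obtain ⟨ea, hea⟩ := exists_index_pred (α := ℕ × List ℕ) (p := fun x => A x.2)
    (cp_comp hA Computable.snd)
  obtain ⟨ei, hei⟩ := exists_imp u
  obtain ⟨el, hel⟩ := exists_all u
  have hea' : ∀ (B : Set ℕ) (c : ℕ) (L : List ℕ),
      Nat.pair ea (Encodable.encode (c, L)) ∈ jump B ↔ A (c, L) := by
    intro B c L
    rw [hea]
    exact ⟨fun ⟨_, h⟩ => h, fun h => ⟨0, h⟩⟩
  let W : Arg → ℕ := fun x =>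
    if x.2.1 = 0 ∨ tg x.2.1 < 2 then upn u (2 * x.2.1) (Nat.pair ea (Encodable.encode x.2))
    else if tg x.2.1 = 2 then Nat.pair ei (Encodable.encode x)
    else Nat.pair v (Nat.pair el (Encodable.encode x))
  have hW : Computable W := by
    have pc : Computable (fun x : Arg => x.2.1) := Computable.fst.comp Computable.snd
    have ka : ∀ k : ℕ, Computable (fun _ : Arg => k) := fun k => Computable.const k
    refine c_ite (cp_or (cp_eq pc (ka 0)) (cp_lt (tg_comp.comp pc) (ka 2))) ?_
      (c_ite (cp_eq (tg_comp.comp pc) (ka 2)) ?_ ?_)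
    · exact (upn_comp u).comp (Computable.pair (c_mul (ka 2) pc)
        (c_pair (ka ea) (Computable.encode.comp Computable.snd)))
    · exact c_pair (ka ei) Computable.encode
    · exact c_pair (ka v) (c_pair (ka el) Computable.encode)
  have hf : Partrec₂ (fun (H : Code) (n : ℕ) =>
      (Part.some (W (H, Denumerable.ofNat (ℕ × List ℕ) n)) : Part ℕ)) := by
    have : Computable (fun x : Code × ℕ => W (x.1, Denumerable.ofNat (ℕ × List ℕ) x.2)) :=
      hW.comp (Computable.pair Computable.fst ((Computable.ofNat (ℕ × List ℕ)).comp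
        Computable.snd))
    exact this.partrec.to₂
  obtain ⟨H, hH⟩ := fixed_point₂ hf
  have hH' : ∀ c L, eval H (Encodable.encode ((c, L) : ℕ × List ℕ)) =
      Part.some (W (H, (c, L))) := by
    intro c L
    rw [hH]
    simp only [Denumerable.ofNat_encode]
  have main : ∀ c L, T c L ↔ W (H, (c, L)) ∈ jumps (2 * c + 1) := by
    intro c
    induction c using Nat.strong_induction_on with
    | _ c ih =>
    intro L
    by_cases hb : c = 0 ∨ tg c < 2
    · have e1 : W (H, (c, L)) = upn u (2 * c) (Nat.pair ea (Encodable.encode (c, L))) :=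
        if_pos hb
      rw [e1, upn_mem' hu (a := 1) (b := 2 * c + 1) (by omega), hA' c L hb]
      exact (hea' (jumps 0) c L).symm
    · have hc : c ≠ 0 := fun h => hb (Or.inl h)
      have ht : ¬ tg c < 2 := fun h => hb (Or.inr h)
      by_cases ht2 : tg c = 2
      · have e1 : W (H, (c, L)) = Nat.pair ei (Encodable.encode ((H, (c, L)) : Arg)) :=
          (if_neg hb).trans (if_pos ht2)
        rw [e1]
        have l1 := d1_lt c hc
        have l2 := d2_lt c hc
        refine Iff.trans ?_ (hei (jumps (2 * c)) H c L _ _ (hH' _ _) (hH' _ _)).symm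
        rw [upn_mem' hu (a := 2 * d1 c + 1) (by omega), upn_mem' hu (a := 2 * d2 c + 1) (by omega),
          ← ih _ l1, ← ih _ l2, hT.imp c L hc ht2]
        exact imp_iff_not_or
      · have e1 : W (H, (c, L)) = Nat.pair v (Nat.pair el (Encodable.encode ((H, (c, L)) : Arg))) :=
          (if_neg hb).trans (if_neg ht2)
        rw [e1]
        have l0 := d0_lt c hc
        refine Iff.trans ?_ (hv (jumps (2 * c)) _).symm
        obtain ⟨c', rfl⟩ := Nat.exists_eq_succ_of_ne_zero hc
        have e2 : jumps (2 * c'.succ) = jump (jumps (2 * c'.succ - 1)) := rfl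
        rw [e2, hel (jumps (2 * c'.succ - 1)) H _ L _ (fun m => hH' _ _)]
        rw [hT.all _ L hc (by omega)]
        push Not
        apply forall_congr'
        intro m
        rw [upn_mem' hu (a := 2 * d0 (c'.succ) + 1) (by omega), ← ih _ l0]
  refine ⟨fun x => Nat.pair (2 * x.1 + 1) (W (H, x)), ?_, ?_⟩
  · exact c_pair (c_add (c_mul (Computable.const 2) Computable.fst) (Computable.const 1))
      (hW.comp (Computable.pair (Computable.const H) Computable.id))
  · intro c L
    rw [main]
    show _ ↔ (Nat.unpair (Nat.pair (2 * c + 1) (W (H, (c, L))))).2 ∈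
      jumps (Nat.unpair (Nat.pair (2 * c + 1) (W (H, (c, L))))).1
    rw [Nat.unpair_pair]

end Pool.Agent.H494_TD
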