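import Pool.Agent.H494_TD.Defs
import Pool.Agent.H494_SCM.CompTools

/-! Use principle: functions recursive in a set are limits of computable ones. -/

open Nat.Partrec (Code)
open Nat.Partrec.Code

namespace Pool.Agent.H494_TD

open Pool.Agent.H494_SCM

theorem seg_length (A : Set ℕ) (k : ℕ) : (seg A k).length = k := by simp [seg]

theorem seg_getElem? (A : Set ℕ) (k x : ℕ) :
    (seg A k)[x]? = open Classical in if x < k then some (decide (x ∈ A)) else none := by
  unfold seg
  rw [List.getElem?_map]
  by_cases h : x < k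
  · rw [List.getElem?_range h, if_pos h]; rfl
  · rw [List.getElem?_eq_none (by simpa using h), if_neg h]; rfl

theorem seg_succ (A : Set ℕ) (k : ℕ) :
    seg A (k + 1) = open Classical in seg A k ++ [decide (k ∈ A)] := by
  unfold seg
  rw [List.range_succ, List.map_append]
  rfl

theorem seg_prefix (A : Set ℕ) {k l : ℕ} (h : k ≤ l) : seg A k <+: seg A l := by
  induction h with
  | refl => exact List.prefix_rfl
  | step _ ih => rw [seg_succ]; exact ih.trans (List.prefix_append _ _)

/-- `G` represents the partial function `f` along `X`. -/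
structure Rep (X : Set ℕ) (f : ℕ →. ℕ) (G : List Bool × ℕ → Option ℕ) : Prop where
  comp : Computable G
  mono : ∀ k l n v, k ≤ l → G (seg X k, n) = some v → G (seg X l, n) = some v
  spec : ∀ n v, v ∈ f n ↔ ∃ k, G (seg X k, n) = some v

variable {X : Set ℕ}

theorem Rep.unique {f : ℕ →. ℕ} {G : List Bool × ℕ → Option ℕ} (h : Rep X f G) {k n v : ℕ}
    (h1 : G (seg X k, n) = some v) : f n = Part.some v :=
  Part.eq_some_iff.2 ((h.spec n v).2 ⟨k, h1⟩)

theorem rep_of_total {f : ℕ → ℕ} (hf : Computable f) :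
    ∃ G, Rep X (fun n => Part.some (f n)) G := by
  refine ⟨fun p => some (f p.2), ⟨Computable.option_some.comp (hf.comp Computable.snd),
    fun _ _ _ _ _ h => h, fun n v => ?_⟩⟩
  simp [eq_comm]

theorem rep_pair {f h : ℕ →. ℕ} {F H : List Bool × ℕ → Option ℕ} (hf : Rep X f F)
    (hh : Rep X h H) : ∃ G, Rep X (fun n => (Nat.pair <$> f n <*> h n)) G := by
  refine ⟨fun p => (F p).bind fun a => (H p).bind fun b => some (Nat.pair a b), ⟨?_, ?_, ?_⟩⟩
  · refine Computable.option_bind hf.comp ?_
    refine Computable.option_bind (hh.comp.comp Computable.fst) ?_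
    exact Computable.option_some.comp (c_pair (Computable.snd.comp Computable.fst) Computable.snd)
  · intro k l n v hkl h1
    simp only [Option.bind_eq_some_iff] at h1 ⊢
    obtain ⟨a, ha, b, hb, hv⟩ := h1
    exact ⟨a, hf.mono k l n a hkl ha, b, hh.mono k l n b hkl hb, hv⟩
  · intro n v
    simp only [Option.bind_eq_some_iff, Seq.seq, Part.map_eq_map, Part.mem_bind_iff,
      Part.mem_map_iff]
    constructor
    · rintro ⟨_, ⟨a, ha, rfl⟩, b, hb, rfl⟩
      obtain ⟨k, hk⟩ := (hf.spec n a).1 ha
      obtain ⟨l, hl⟩ := (hh.spec n b).1 hb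
      exact ⟨max k l, a, hf.mono _ _ _ _ (le_max_left _ _) hk, b,
        hh.mono _ _ _ _ (le_max_right _ _) hl, rfl⟩
    · rintro ⟨k, a, ha, b, hb, hv⟩
      exact ⟨_, ⟨a, (hf.spec n a).2 ⟨k, ha⟩, rfl⟩, b, (hh.spec n b).2 ⟨k, hb⟩,
        Option.some.inj hv⟩

theorem rep_comp {f h : ℕ →. ℕ} {F H : List Bool × ℕ → Option ℕ} (hf : Rep X f F)
    (hh : Rep X h H) : ∃ G, Rep X (fun n => h n >>= f) G := by
  refine ⟨fun p => (H p).bind fun b => F (p.1, b), ⟨?_, ?_, ?_⟩⟩
  · refine Computable.option_bind hh.comp ?_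
    exact hf.comp.comp (Computable.pair (Computable.fst.comp Computable.fst) Computable.snd)
  · intro k l n v hkl h1
    simp only [Option.bind_eq_some_iff] at h1 ⊢
    obtain ⟨b, hb, hv⟩ := h1
    exact ⟨b, hh.mono k l n b hkl hb, hf.mono k l b v hkl hv⟩
  · intro n v
    simp only [Option.bind_eq_some_iff, Part.bind_eq_bind, Part.mem_bind_iff]
    constructor
    · rintro ⟨b, hb, hv⟩
      obtain ⟨k, hk⟩ := (hh.spec n b).1 hb
      obtain ⟨l, hl⟩ := (hf.spec b v).1 hv
      exact ⟨max k l, b, hh.mono _ _ _ _ (le_max_left _ _) hk,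
        hf.mono _ _ _ _ (le_max_right _ _) hl⟩
    · rintro ⟨k, b, hb, hv⟩
      exact ⟨b, (hh.spec n b).2 ⟨k, hb⟩, (hf.spec b v).2 ⟨k, hv⟩⟩

/-- bounded recursion -/
def recG (F H : List Bool × ℕ → Option ℕ) (σ : List Bool) (a : ℕ) : ℕ → Option ℕ
  | 0 => F (σ, a)
  | y + 1 => (recG F H σ a y).bind fun i => H (σ, Nat.pair a (Nat.pair y i))

theorem recG_comp {F H : List Bool × ℕ → Option ℕ} (hF : Computable F) (hH : Computable H) :
    Computable (fun p : List Bool × ℕ => recG F H p.1 (Nat.unpair p.2).1 (Nat.unpair p.2).2) := by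
  have h1 : Computable (fun p : List Bool × ℕ => (Nat.unpair p.2).1) := c_up1 Computable.snd
  have h2 : Computable (fun p : List Bool × ℕ => (Nat.unpair p.2).2) := c_up2 Computable.snd
  have h3 : Computable₂ (fun (p : List Bool × ℕ) (q : ℕ × Option ℕ) =>
      q.2.bind fun i => H (p.1, Nat.pair (Nat.unpair p.2).1 (Nat.pair q.1 i))) := by
    refine Computable.option_bind (Computable.snd.comp Computable.snd) ?_
    have e1 : Computable (fun x : ((List Bool × ℕ) × (ℕ × Option ℕ)) × ℕ => x.1.1) :=
      Computable.fst.comp Computable.fst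
    refine hH.comp (Computable.pair (Computable.fst.comp e1) (c_pair (h1.comp e1)
      (c_pair ?_ Computable.snd)))
    exact Computable.fst.comp (Computable.snd.comp Computable.fst)
  refine (Computable.nat_rec h2 (hF.comp (Computable.pair Computable.fst h1)) h3).of_eq ?_
  rintro ⟨σ, n⟩
  simp only
  induction (Nat.unpair n).2 with
  | zero => rfl
  | succ y ih => simp only [recG, ← ih]

theorem recG_mono {f h : ℕ →. ℕ} {F H : List Bool × ℕ → Option ℕ} (hf : Rep X f F)
    (hh : Rep X h H) (a : ℕ) : ∀ m k l v, k ≤ l → recG F H (seg X k) a m = some v →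
      recG F H (seg X l) a m = some v := by
  intro m
  induction m with
  | zero => intro k l v hkl h1; exact hf.mono k l a v hkl h1
  | succ m ih =>
    intro k l v hkl h1
    simp only [recG, Option.bind_eq_some_iff] at h1 ⊢
    obtain ⟨i, hi, hv⟩ := h1
    exact ⟨i, ih k l i hkl hi, hh.mono k l _ v hkl hv⟩

theorem rep_prec {f h : ℕ →. ℕ} {F H : List Bool × ℕ → Option ℕ} (hf : Rep X f F)
    (hh : Rep X h H) : ∃ G, Rep X (fun p =>
        let (a, n) := Nat.unpair p
        n.rec (f a) fun y IH => do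
          let i ← IH
          h (Nat.pair a (Nat.pair y i))) G := by
  refine ⟨fun p => recG F H p.1 (Nat.unpair p.2).1 (Nat.unpair p.2).2,
    ⟨recG_comp hf.comp hh.comp, ?_, ?_⟩⟩
  · intro k l n v hkl h1
    exact recG_mono hf hh _ _ k l v hkl h1
  · intro p v
    simp only
    generalize (Nat.unpair p).1 = a
    generalize (Nat.unpair p).2 = n
    induction n generalizing v with
    | zero => exact hf.spec a v
    | succ y ih =>
      simp only [recG, Option.bind_eq_some_iff]
      constructor
      · intro hv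
        obtain ⟨i, hi, hv⟩ := Part.mem_bind_iff.1 hv
        obtain ⟨k, hk⟩ := (ih i).1 hi
        obtain ⟨l, hl⟩ := (hh.spec _ v).1 hv
        exact ⟨max k l, i, recG_mono hf hh a y _ _ _ (le_max_left _ _) hk,
          hh.mono _ _ _ _ (le_max_right _ _) hl⟩
      · rintro ⟨k, i, hi, hv⟩
        exact Part.mem_bind_iff.2 ⟨i, (ih i).2 ⟨k, hi⟩, (hh.spec _ v).2 ⟨k, hv⟩⟩

/-- bounded search: `none` = undefined so far, `some none` = nothing found below `m` -/
def srch (F : List Bool × ℕ → Option ℕ) (σ : List Bool) (a : ℕ) : ℕ → Option (Option ℕ)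
  | 0 => some none
  | m + 1 => (srch F σ a m).bind fun r => r.casesOn
      ((F (σ, Nat.pair a m)).bind fun v => bif decide (v = 0) then some (some m) else some none)
      (fun n => some (some n))

theorem srch_none (F : List Bool × ℕ → Option ℕ) (σ : List Bool) (a : ℕ) : ∀ m,
    srch F σ a m = some none ↔ ∀ j < m, ∃ v, v ≠ 0 ∧ F (σ, Nat.pair a j) = some v := by
  intro m
  induction m with
  | zero => simp [srch]
  | succ m ih =>
    rw [srch, Option.bind_eq_some_iff]
    constructor
    · rintro ⟨r, hr, h⟩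
      cases r with
      | some n => simp at h
      | none =>
        simp only [Option.bind_eq_some_iff] at h
        obtain ⟨v, hv, h⟩ := h
        intro j hj
        rcases Nat.lt_succ_iff_lt_or_eq.1 hj with hj | rfl
        · exact ih.1 hr j hj
        · refine ⟨v, ?_, hv⟩
          rintro rfl
          simp at h
    · intro h
      refine ⟨none, ih.2 (fun j hj => h j (Nat.lt_succ_of_lt hj)), ?_⟩
      obtain ⟨v, hv, hF⟩ := h m (Nat.lt_succ_self m)
      simp only [Option.bind_eq_some_iff]
      exact ⟨v, hF, by simp [hv]⟩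

theorem srch_some (F : List Bool × ℕ → Option ℕ) (σ : List Bool) (a n : ℕ) : ∀ m,
    srch F σ a m = some (some n) ↔ n < m ∧ F (σ, Nat.pair a n) = some 0 ∧
      ∀ j < n, ∃ v, v ≠ 0 ∧ F (σ, Nat.pair a j) = some v := by
  intro m
  induction m with
  | zero => simp [srch]
  | succ m ih =>
    rw [srch, Option.bind_eq_some_iff]
    constructor
    · rintro ⟨r, hr, h⟩
      cases r with
      | some n' =>
        simp only [Option.some.injEq] at h
        subst h
        obtain ⟨h1, h2, h3⟩ := ih.1 hr
        exact ⟨Nat.lt_succ_of_lt h1, h2, h3⟩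
      | none =>
        simp only [Option.bind_eq_some_iff] at h
        obtain ⟨v, hv, h⟩ := h
        by_cases hv0 : v = 0
        · subst hv0
          simp only [decide_true, cond_true, Option.some.injEq] at h
          subst h
          exact ⟨Nat.lt_succ_self _, hv, (srch_none F σ a m).1 hr⟩
        · simp [hv0] at h
    · rintro ⟨h1, h2, h3⟩
      rcases Nat.lt_succ_iff_lt_or_eq.1 h1 with h1 | rfl
      · exact ⟨some n, ih.2 ⟨h1, h2, h3⟩, rfl⟩
      · refine ⟨none, (srch_none F σ a n).2 h3, ?_⟩
        simp only [Option.bind_eq_some_iff]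
        exact ⟨0, h2, by simp⟩

theorem srch_comp {F : List Bool × ℕ → Option ℕ} (hF : Computable F) :
    Computable (fun p : List Bool × ℕ => (srch F p.1 p.2 p.1.length).bind id) := by
  have h3 : Computable₂ (fun (p : List Bool × ℕ) (q : ℕ × Option (Option ℕ)) =>
      q.2.bind fun r => (Option.casesOn r
      ((F (p.1, Nat.pair p.2 q.1)).bind fun v =>
        bif decide (v = 0) then some (some q.1) else some none)
      (fun n => some (some n)) : Option (Option ℕ))) := by
    refine Computable.option_bind (Computable.snd.comp Computable.snd) ?_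
    have e1 : Computable (fun x : ((List Bool × ℕ) × (ℕ × Option (Option ℕ))) × Option ℕ =>
      x.1.1) := Computable.fst.comp Computable.fst
    have e2 : Computable (fun x : ((List Bool × ℕ) × (ℕ × Option (Option ℕ))) × Option ℕ =>
      x.1.2.1) := Computable.fst.comp (Computable.snd.comp Computable.fst)
    refine Computable.option_casesOn Computable.snd ?_ ?_
    · refine Computable.option_bind (hF.comp (Computable.pair (Computable.fst.comp e1)
        (c_pair (Computable.snd.comp e1) e2))) ?_
      refine Computable.cond ((cp_eq Computable.snd (Computable.const 0)).decide) ?_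
        (Computable.const _)
      exact Computable.option_some.comp (Computable.option_some.comp (e2.comp Computable.fst))
    · exact (Computable.option_some.comp (Computable.option_some.comp Computable.snd))
  have h4 : Computable (fun p : List Bool × ℕ => srch F p.1 p.2 p.1.length) := by
    refine (Computable.nat_rec (Computable.list_length.comp Computable.fst)
      (Computable.const (some none)) h3).of_eq ?_
    rintro ⟨σ, a⟩
    simp only
    induction σ.length with
    | zero => rfl
    | succ y ih => simp only [srch, ← ih]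
  exact Computable.option_bind h4 Computable.snd

theorem exists_bound {P : ℕ → ℕ → Prop} (hP : ∀ j k l, k ≤ l → P j k → P j l) (n : ℕ)
    (h : ∀ j < n, ∃ k, P j k) : ∃ K, ∀ j < n, P j K := by
  induction n with
  | zero => exact ⟨0, by simp⟩
  | succ n ih =>
    obtain ⟨K, hK⟩ := ih (fun j hj => h j (Nat.lt_succ_of_lt hj))
    obtain ⟨k, hk⟩ := h n (Nat.lt_succ_self n)
    refine ⟨max K k, fun j hj => ?_⟩
    rcases Nat.lt_succ_iff_lt_or_eq.1 hj with hj | rfl
    · exact hP _ _ _ (le_max_left _ _) (hK j hj)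
    · exact hP _ _ _ (le_max_right _ _) hk

theorem rep_rfind {f : ℕ →. ℕ} {F : List Bool × ℕ → Option ℕ} (hf : Rep X f F) :
    ∃ G, Rep X (fun a => Nat.rfind fun n => (fun m => m = 0) <$> f (Nat.pair a n)) G := by
  refine ⟨_, ⟨srch_comp hf.comp, ?_, ?_⟩⟩
  · intro k l n v hkl h1
    simp only [Option.bind_eq_some_iff, id] at h1 ⊢
    obtain ⟨_, h1, rfl⟩ := h1
    refine ⟨_, ?_, rfl⟩
    obtain ⟨h2, h3, h4⟩ := (srch_some F _ _ _ _).1 h1
    rw [seg_length] at h2
    refine (srch_some F _ _ _ _).2 ⟨?_, hf.mono _ _ _ _ hkl h3, ?_⟩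
    · rw [seg_length]; omega
    · intro j hj
      obtain ⟨w, hw, hw'⟩ := h4 j hj
      exact ⟨w, hw, hf.mono _ _ _ _ hkl hw'⟩
  · intro a v
    simp only [Option.bind_eq_some_iff, id, exists_eq_right]
    rw [Nat.mem_rfind]
    have key : ∀ j (b : Bool), b ∈ ((fun m => decide (m = 0)) <$> f (Nat.pair a j) : Part Bool) ↔
        ∃ w, w ∈ f (Nat.pair a j) ∧ decide (w = 0) = b := by
      intro j b
      rw [Part.map_eq_map, Part.mem_map_iff]
    constructor
    · rintro ⟨h1, h2⟩
      obtain ⟨w, hw, hw'⟩ := (key _ _).1 h1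
      obtain rfl : w = 0 := by simpa using hw'
      obtain ⟨k0, hk0⟩ := (hf.spec _ _).1 hw
      have h3 : ∀ j < v, ∃ k, ∃ w, w ≠ 0 ∧ F (seg X k, Nat.pair a j) = some w := by
        intro j hj
        obtain ⟨w, hw, hw'⟩ := (key _ _).1 (h2 hj)
        obtain ⟨k, hk⟩ := (hf.spec _ _).1 hw
        exact ⟨k, w, by simpa using hw', hk⟩
      obtain ⟨K, hK⟩ := exists_bound (P := fun j k => ∃ w, w ≠ 0 ∧
        F (seg X k, Nat.pair a j) = some w) (by
          rintro j k l hkl ⟨w, hw, hw'⟩
          exact ⟨w, hw, hf.mono _ _ _ _ hkl hw'⟩) v h3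
      refine ⟨max (max K k0) (v + 1), (srch_some F _ _ _ _).2 ⟨?_, ?_, ?_⟩⟩
      · rw [seg_length]; omega
      · exact hf.mono _ _ _ _ (by omega) hk0
      · intro j hj
        obtain ⟨w, hw, hw'⟩ := hK j hj
        exact ⟨w, hw, hf.mono _ _ _ _ (by omega) hw'⟩
    · rintro ⟨k, hk⟩
      obtain ⟨_, h3, h4⟩ := (srch_some F _ _ _ _).1 hk
      refine ⟨(key _ _).2 ⟨0, (hf.spec _ _).2 ⟨k, h3⟩, by simp⟩, fun {j} hj => ?_⟩
      obtain ⟨w, hw, hw'⟩ := h4 j hj
      exact (key _ _).2 ⟨w, (hf.spec _ _).2 ⟨k, hw'⟩, by simpa using hw⟩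

theorem rep_oracle : ∃ G, Rep X (chi X) G := by
  classical
  refine ⟨fun p => (p.1[p.2]?).map (fun b => b.toNat), ⟨?_, ?_, ?_⟩⟩
  · refine Computable.option_map (Computable.list_getElem?.comp Computable.fst Computable.snd) ?_
    exact ((Primrec.dom_bool Bool.toNat).to_comp.comp Computable.snd).to₂
  · intro k l n v hkl h1
    simp only [Option.map_eq_some_iff, seg_getElem?] at h1 ⊢
    obtain ⟨b, hb, hv⟩ := h1
    refine ⟨b, ?_, hv⟩
    split_ifs at hb ⊢ with h3 h4
    · exact hb
    · omega
  · intro n v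
    simp only [Option.map_eq_some_iff, seg_getElem?]
    unfold chi
    constructor
    · intro hv
      have hv' := Part.mem_some_iff.1 hv
      refine ⟨n + 1, decide (n ∈ X), by rw [if_pos (Nat.lt_succ_self n)], ?_⟩
      rw [hv']
      by_cases h : n ∈ X <;> simp [h]
    · rintro ⟨k, b, hb, hv⟩
      split_ifs at hb with h3
      obtain rfl := Option.some.inj hb
      rw [Part.mem_some_iff, ← hv]
      by_cases h : n ∈ X <;> simp [h]

/-- the use principle -/
theorem exists_rep {f : ℕ →. ℕ} (h : Nat.RecursiveIn {chi X} f) : ∃ G, Rep X f G := by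
  induction h with
  | zero => exact rep_of_total (f := fun _ => 0) (Computable.const 0)
  | succ => exact rep_of_total (f := Nat.succ) Computable.succ
  | left => exact rep_of_total (f := fun n => (Nat.unpair n).1) (c_up1 Computable.id)
  | right => exact rep_of_total (f := fun n => (Nat.unpair n).2) (c_up2 Computable.id)
  | oracle g hg =>
    rw [Set.mem_singleton_iff.1 hg]
    exact rep_oracle
  | pair _ _ ih1 ih2 =>
    obtain ⟨F, hF⟩ := ih1
    obtain ⟨H, hH⟩ := ih2
    exact rep_pair hF hH
  | comp _ _ ih1 ih2 =>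
    obtain ⟨F, hF⟩ := ih1
    obtain ⟨H, hH⟩ := ih2
    exact rep_comp hF hH
  | prec _ _ ih1 ih2 =>
    obtain ⟨F, hF⟩ := ih1
    obtain ⟨H, hH⟩ := ih2
    exact rep_prec hF hH
  | rfind _ ih =>
    obtain ⟨F, hF⟩ := ih
    exact rep_rfind hF

end Pool.Agent.H494_TD
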